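import Mathlib

set_option autoImplicit false

namespace Pool.Agent.Helper604.Cube

/-- value of a lattice point -/
def val (p q l a b c : ℤ) : ℤ := (p ^ 3 + q ^ 3) * l + q ^ 2 * a + p * q * b + p ^ 2 * c

def S (p q v : ℤ) : Prop :=
  ∃ l a b c : ℤ, (0 ≤ a ∧ a ≤ l) ∧ (0 ≤ b ∧ b ≤ l) ∧ (0 ≤ c ∧ c ≤ l) ∧ v = val p q l a b c

theorem solve {p q : ℤ} (hp : p ≠ 0) (hq : q ≠ 0) (hc : IsCoprime p q) {d1 d2 d3 k : ℤ}
    (h : q ^ 2 * d1 + p * q * d2 + p ^ 2 * d3 = (p ^ 3 + q ^ 3) * k) :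
    ∃ x y : ℤ, d1 = q * k + p * x ∧ d2 = p * y - q * x ∧ d3 = p * k - q * y := by
  have h1 : p ∣ q ^ 2 * (d1 - q * k) :=
    ⟨p ^ 2 * k - q * d2 - p * d3, by linear_combination h⟩
  have h2 : p ∣ d1 - q * k := (hc.pow_right (n := 2)).dvd_of_dvd_mul_left h1
  obtain ⟨x, hx⟩ := h2
  have h3 : q ^ 2 * x + q * d2 + p * d3 = p ^ 2 * k := by
    have : p * (q ^ 2 * x + q * d2 + p * d3) = p * (p ^ 2 * k) := by
      linear_combination h - q ^ 2 * hx
    exact mul_left_cancel₀ hp this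
  have h4 : q ∣ p * (p * k - d3) := ⟨q * x + d2, by linear_combination -h3⟩
  have h5 : q ∣ p * k - d3 := hc.symm.dvd_of_dvd_mul_left h4
  obtain ⟨y, hy⟩ := h5
  refine ⟨x, y, by linarith, ?_, by linarith⟩
  have : q * d2 = q * (p * y - q * x) := by linear_combination h3 + p * hy
  exact mul_left_cancel₀ hq this

theorem F_not_S {p q : ℤ} (hq : 1 ≤ q) (hpq : q < p) (hc : IsCoprime p q) :
    ¬ S p q (val p q (p + q - 1) (p - 1) (p - 1) (-1)) := by
  rintro ⟨l, a, b, c, ⟨ha0, ha⟩, ⟨hb0, hb⟩, ⟨hc0, hcl⟩, h⟩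
  unfold val at h
  obtain ⟨x, y, h1, h2, h3⟩ := solve (p := p) (q := q) (d1 := a - (p - 1)) (d2 := b - (p - 1))
    (d3 := c + 1) (k := p + q - 1 - l) (by omega) (by omega) hc (by linear_combination -h)
  obtain ⟨z, hz⟩ : ∃ z, z = p + q - 1 - l := ⟨_, rfl⟩
  rw [← hz] at h1 h3
  rcases le_or_gt z 0 with hz0 | hz0
  · have hx : 0 ≤ x := by
      by_contra hx
      have hx : x ≤ -1 := by omega
      nlinarith
    have hy : y ≤ -1 := by
      by_contra hy
      have hy : 0 ≤ y := by omega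
      nlinarith
    nlinarith
  · have hx : x ≤ -1 := by
      by_contra hx
      have hx : 0 ≤ x := by omega
      nlinarith
    have hy : y ≤ -1 := by
      by_contra hy
      have hy : 0 ≤ y := by omega
      nlinarith
    nlinarith

def InTile (p q a b c : ℤ) : Prop :=
  ((0 ≤ a ∧ a ≤ p - 1) ∧ (0 ≤ b ∧ b ≤ p - 1) ∧ (0 ≤ c ∧ c ≤ p - 1)) ∨
  ((p ≤ a ∧ a ≤ p + q - 1) ∧ (p - q ≤ b ∧ b ≤ p - 1) ∧ (p - q ≤ c ∧ c ≤ p - 1))

theorem box_inj {p q : ℤ} (hq : 1 ≤ q) (hpq : q < p) {d1 d2 d3 k x y : ℤ}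
    (h1 : d1 = q * k + p * x) (h2 : d2 = p * y - q * x) (h3 : d3 = p * k - q * y)
    (b1 : d1 < p ∧ -p < d1) (b2 : d2 < p ∧ -p < d2) (b3 : d3 < p ∧ -p < d3) :
    d1 = 0 ∧ d2 = 0 ∧ d3 = 0 := by
  have hp : 0 < p := by omega
  have hk : k = 0 := by
    rcases lt_trichotomy k 0 with hk | hk | hk
    · exfalso
      have hx : 0 ≤ x := by
        by_contra hx
        have hx : x ≤ -1 := by omega
        nlinarith
      have hy : y ≤ -1 := by
        by_contra hy
        have hy : 0 ≤ y := by omega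
        nlinarith
      nlinarith
    · exact hk
    · exfalso
      have hx : x ≤ 0 := by
        by_contra hx
        have hx : 1 ≤ x := by omega
        nlinarith
      have hy : 1 ≤ y := by
        by_contra hy
        have hy : y ≤ 0 := by omega
        nlinarith
      nlinarith
  subst hk
  have hx : x = 0 := by
    rcases lt_trichotomy x 0 with hx | hx | hx
    · nlinarith
    · exact hx
    · nlinarith
  subst hx
  have hy : y = 0 := by
    rcases lt_trichotomy y 0 with hy | hy | hy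
    · nlinarith
    · exact hy
    · nlinarith
  subst hy
  simp [h1, h2, h3]

theorem mixed {p q : ℤ} (hq : 1 ≤ q) (hpq : q < p) {d1 d2 d3 k x y : ℤ}
    (h1 : d1 = q * k + p * x) (h2 : d2 = p * y - q * x) (h3 : d3 = p * k - q * y)
    (b1 : 1 ≤ d1 ∧ d1 ≤ p + q - 1) (b2 : 1 - q ≤ d2 ∧ d2 ≤ p - 1) (b3 : 1 - q ≤ d3 ∧ d3 ≤ p - 1) :
    False := by
  have hp : 0 < p := by omega
  rcases lt_trichotomy k 0 with hk | hk | hk
  · have hx : 1 ≤ x := by
      by_contra hx
      have hx : x ≤ 0 := by omega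
      nlinarith
    have hy : y ≤ -1 := by
      by_contra hy
      have hy : 0 ≤ y := by omega
      nlinarith
    nlinarith
  · subst hk
    have hy : y ≤ 0 := by
      by_contra hy
      have hy : 1 ≤ y := by omega
      nlinarith
    have hx : x ≤ 0 := by
      by_contra hx
      have hx : 1 ≤ x := by omega
      nlinarith
    nlinarith
  · have hy : 1 ≤ y := by
      by_contra hy
      have hy : y ≤ 0 := by omega
      nlinarith
    have hx : 1 ≤ x := by
      by_contra hx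
      have hx : x ≤ 0 := by omega
      nlinarith
    nlinarith

theorem tile_inj {p q : ℤ} (hq : 1 ≤ q) (hpq : q < p) (hc : IsCoprime p q)
    {a b c a' b' c' k : ℤ} (h : InTile p q a b c) (h' : InTile p q a' b' c')
    (e : q ^ 2 * (a' - a) + p * q * (b' - b) + p ^ 2 * (c' - c) = (p ^ 3 + q ^ 3) * k) :
    a' - a = 0 ∧ b' - b = 0 ∧ c' - c = 0 := by
  obtain ⟨x, y, h1, h2, h3⟩ := solve (by omega) (by omega) hc e
  rcases h with ⟨⟨u1, u2⟩, ⟨u3, u4⟩, ⟨u5, u6⟩⟩ | ⟨⟨u1, u2⟩, ⟨u3, u4⟩, ⟨u5, u6⟩⟩ <;>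
  rcases h' with ⟨⟨w1, w2⟩, ⟨w3, w4⟩, ⟨w5, w6⟩⟩ | ⟨⟨w1, w2⟩, ⟨w3, w4⟩, ⟨w5, w6⟩⟩
  · exact box_inj hq hpq h1 h2 h3 (by omega) (by omega) (by omega)
  · exact (mixed hq hpq h1 h2 h3 (by omega) (by omega) (by omega)).elim
  · exact (mixed hq hpq (d1 := -(a' - a)) (d2 := -(b' - b)) (d3 := -(c' - c)) (k := -k) (x := -x)
      (y := -y) (by linear_combination -h1) (by linear_combination -h2) (by linear_combination -h3)
      (by omega) (by omega) (by omega)).elim
  · exact box_inj hq hpq h1 h2 h3 (by omega) (by omega) (by omega)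


/-- every integer has a representation with reduced coordinates -/
theorem tile_exists {p q : ℤ} (hq : 1 ≤ q) (hpq : q < p) (hc : IsCoprime p q) (v : ℤ) :
    ∃ l a b c : ℤ, InTile p q a b c ∧ v = val p q l a b c := by
  obtain ⟨P, rfl⟩ : ∃ P : ℕ, p = P := ⟨p.toNat, by omega⟩
  obtain ⟨Q, rfl⟩ : ∃ Q : ℕ, q = Q := ⟨q.toNat, by omega⟩
  have hA : 0 < P ^ 3 + Q ^ 3 := by
    have : 0 < P := by omega
    positivity
  have : NeZero (P ^ 3 + Q ^ 3) := ⟨hA.ne'⟩
  let g : (Fin P × Fin P × Fin P) ⊕ (Fin Q × Fin Q × Fin Q) → ℤ × ℤ × ℤ := fun s =>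
    match s with
    | Sum.inl (x, y, z) => ((x : ℤ), (y : ℤ), (z : ℤ))
    | Sum.inr (x, y, z) => ((x : ℤ) + P, (y : ℤ) + (P - Q), (z : ℤ) + (P - Q))
  have hg : ∀ s, InTile P Q (g s).1 (g s).2.1 (g s).2.2 := by
    rintro (⟨x, y, z⟩ | ⟨x, y, z⟩)
    · left
      have := x.2; have := y.2; have := z.2
      simp only [g]
      omega
    · right
      have := x.2; have := y.2; have := z.2
      simp only [g]
      omega
  have ginj : ∀ s t, (g s) = (g t) → s = t := by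
    rintro (⟨x, y, z⟩ | ⟨x, y, z⟩) (⟨x', y', z'⟩ | ⟨x', y', z'⟩) h <;>
      simp only [g, Prod.mk.injEq] at h <;>
      have := x.2 <;> have := y.2 <;> have := z.2 <;> have := x'.2 <;> have := y'.2 <;>
      have := z'.2
    · simp only [Sum.inl.injEq, Prod.mk.injEq]
      refine ⟨?_, ?_, ?_⟩ <;> ext <;> omega
    · omega
    · omega
    · simp only [Sum.inr.injEq, Prod.mk.injEq]
      refine ⟨?_, ?_, ?_⟩ <;> ext <;> omega
  let f : (Fin P × Fin P × Fin P) ⊕ (Fin Q × Fin Q × Fin Q) → ZMod (P ^ 3 + Q ^ 3) := fun s =>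
    (((Q : ℤ) ^ 2 * (g s).1 + (P : ℤ) * Q * (g s).2.1 + (P : ℤ) ^ 2 * (g s).2.2 : ℤ) :
      ZMod (P ^ 3 + Q ^ 3))
  have finj : Function.Injective f := by
    intro s t hst
    have h1 := (ZMod.intCast_eq_intCast_iff_dvd_sub _ _ _).mp hst
    obtain ⟨k, hk⟩ := h1
    have h2 := tile_inj (p := P) (q := Q) hq hpq hc (hg s) (hg t) (k := k) (by
      push_cast at hk
      linear_combination hk)
    apply ginj
    ext
    · linarith [h2.1]
    · linarith [h2.2.1]
    · linarith [h2.2.2]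
  have fbij : Function.Bijective f := by
    rw [Fintype.bijective_iff_injective_and_card]
    refine ⟨finj, ?_⟩
    simp only [Fintype.card_sum, Fintype.card_prod, Fintype.card_fin, ZMod.card]
    ring
  obtain ⟨s, hs⟩ := fbij.2 ((v : ℤ) : ZMod (P ^ 3 + Q ^ 3))
  have h1 := (ZMod.intCast_eq_intCast_iff_dvd_sub _ _ _).mp hs
  obtain ⟨k, hk⟩ := h1
  refine ⟨k, (g s).1, (g s).2.1, (g s).2.2, hg s, ?_⟩
  unfold val
  push_cast at hk
  linear_combination hk

/-- the Frobenius number -/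
def Fr (p q : ℤ) : ℤ := val p q (p + q - 1) (p - 1) (p - 1) (-1)


/-- the symmetric case `p = q + 1` -/
theorem sym_tri {p q : ℤ} (hq : 1 ≤ q) (hpq : p = q + 1) (hc : IsCoprime p q) (v : ℤ) :
    S p q v ∨ S p q (Fr p q - v) := by
  obtain ⟨l, a, b, c, ht, hv⟩ := tile_exists hq (by omega) hc v
  rcases ht with ⟨⟨u1, u2⟩, ⟨u3, u4⟩, ⟨u5, u6⟩⟩ | ⟨⟨u1, u2⟩, ⟨u3, u4⟩, ⟨u5, u6⟩⟩
  · by_cases h : a ≤ l ∧ b ≤ l ∧ c ≤ l
    · left; exact ⟨l, a, b, c, ⟨u1, h.1⟩, ⟨u3, h.2.1⟩, ⟨u5, h.2.2⟩, hv⟩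
    by_cases hA : l ≤ a - 1 ∧ l ≤ b + q - 1 ∧ l ≤ c + q - 1
    · right
      refine ⟨p + q - 2 - l, p + q - 1 - a, p - 1 - b, p - 1 - c, by omega, by omega, by omega, ?_⟩
      rw [hv]; unfold Fr val; ring
    by_cases hB : a ≤ q - 1 ∧ l ≤ b - 1 ∧ l ≤ c + q - 1
    · right
      refine ⟨p + q - 2 - l, q - 1 - a, p + q - 1 - b, p - 1 - c, by omega, by omega, by omega, ?_⟩
      rw [hv]; unfold Fr val; ring
    · right
      refine ⟨p + q - 2 - l, q - 1 - a, q - 1 - b, p + q - 1 - c, by omega, by omega, by omega, ?_⟩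
      rw [hv]; unfold Fr val; ring
  · by_cases h1 : a ≤ l
    · left; exact ⟨l, a, b, c, by omega, by omega, by omega, hv⟩
    by_cases h2 : b + q ≤ l
    · left
      refine ⟨l, a - p, b + q, c, by omega, by omega, by omega, ?_⟩
      rw [hv]; unfold val; ring
    by_cases h3 : c + q ≤ l
    · left
      refine ⟨l, a - p, b + q - p, c + q, by omega, by omega, by omega, ?_⟩
      rw [hv]; unfold val; ring
    right
    refine ⟨p + q - 2 - l, p + q - 1 - a, p - 1 - b, p - 1 - c, by omega, by omega, by omega, ?_⟩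
    rw [hv]; unfold Fr val; ring

theorem S_zero (p q : ℤ) : S p q 0 := ⟨0, 0, 0, 0, by omega, by omega, by omega, by unfold val; ring⟩

theorem S_add {p q v w : ℤ} (hv : S p q v) (hw : S p q w) : S p q (v + w) := by
  obtain ⟨l, a, b, c, h1, h2, h3, rfl⟩ := hv
  obtain ⟨l', a', b', c', h1', h2', h3', rfl⟩ := hw
  exact ⟨l + l', a + a', b + b', c + c', by omega, by omega, by omega, by unfold val; ring⟩

theorem sym_iff {p q : ℤ} (hq : 1 ≤ q) (hpq : p = q + 1) (hc : IsCoprime p q) (v : ℤ) :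
    S p q v ↔ ¬ S p q (Fr p q - v) := by
  constructor
  · intro h h'
    apply F_not_S hq (by omega) hc
    have := S_add h h'
    rw [add_sub_cancel] at this
    exact this
  · intro h
    exact (sym_tri hq hpq hc v).resolve_right h

/-- the special values have exactly two representations -/
theorem two_reps {p q : ℤ} (hq : 1 ≤ q) (hpq : p = q + 1) (hc : IsCoprime p q) {n : ℤ}
    (hn1 : 1 ≤ n) (hn2 : n ≤ q) {l a b c : ℤ} (ha : 0 ≤ a ∧ a ≤ l) (hb : 0 ≤ b ∧ b ≤ l)
    (hc' : 0 ≤ c ∧ c ≤ l) (h : val p q l a b c = val p q p n 0 q) :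
    (l = p ∧ a = n ∧ b = p ∧ c = 0) ∨ (l = p ∧ a = n ∧ b = 0 ∧ c = q) := by
  unfold val at h
  obtain ⟨x, y, h1, h2, h3⟩ := solve (p := p) (q := q) (d1 := a - n) (d2 := b) (d3 := c - q)
    (k := p - l) (by omega) (by omega) hc (by linear_combination h)
  obtain ⟨z, hz⟩ : ∃ z, z = p - l := ⟨_, rfl⟩
  rw [← hz] at h1 h3
  subst hpq
  rcases lt_trichotomy z 0 with hz0 | hz0 | hz0
  · exfalso
    have hx : 0 ≤ x := by
      by_contra hx
      have hx : x ≤ -1 := by omega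
      nlinarith
    have hy : y ≤ -1 := by
      by_contra hy
      have hy : 0 ≤ y := by omega
      nlinarith
    nlinarith
  · subst hz0
    have hl : l = q + 1 := by omega
    have hx : x = 0 := by
      rcases lt_trichotomy x 0 with hx | hx | hx
      · nlinarith
      · exact hx
      · nlinarith
    subst hx
    have hy0 : 0 ≤ y := by
      by_contra hy
      have hy : y ≤ -1 := by omega
      nlinarith
    have hy1 : y ≤ 1 := by
      by_contra hy
      have hy : 2 ≤ y := by omega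
      nlinarith
    have : y = 0 ∨ y = 1 := by omega
    rcases this with rfl | rfl
    · right; refine ⟨hl, ?_, ?_, ?_⟩ <;> linarith
    · left; refine ⟨hl, ?_, ?_, ?_⟩ <;> linarith
  · exfalso
    have hx : x ≤ -1 := by
      by_contra hx
      have hx : 0 ≤ x := by omega
      nlinarith
    have hy : 2 ≤ y := by
      by_contra hy
      have hy : y ≤ 1 := by omega
      nlinarith
    nlinarith

end Pool.Agent.Helper604.Cube
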