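import Pool.Agent.Helper604.Cube

set_option autoImplicit false

namespace Pool.Agent.Helper604.Cube

/-- the eight generators -/
def gen (p q : ℕ) (i : Fin 8) : ℕ :=
  (p ^ 3 + q ^ 3) + q ^ 2 * (i.val % 2) + p * q * (i.val / 2 % 2) + p ^ 2 * (i.val / 4)

theorem gen_val (p q : ℕ) : gen p q 0 = (p ^ 3 + q ^ 3) ∧ gen p q 1 = (p ^ 3 + q ^ 3) + q ^ 2 ∧
    gen p q 2 = (p ^ 3 + q ^ 3) + p * q ∧ gen p q 3 = (p ^ 3 + q ^ 3) + q ^ 2 + p * q ∧
    gen p q 4 = (p ^ 3 + q ^ 3) + p ^ 2 ∧ gen p q 5 = (p ^ 3 + q ^ 3) + q ^ 2 + p ^ 2 ∧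
    gen p q 6 = (p ^ 3 + q ^ 3) + p * q + p ^ 2 ∧
    gen p q 7 = (p ^ 3 + q ^ 3) + q ^ 2 + p * q + p ^ 2 := by
  simp [gen]

theorem sum_gen (p q : ℕ) (c : Fin 8 → ℕ) :
    ((∑ j, c j * gen p q j : ℕ) : ℤ) =
      val p q ((c 0 + c 1 + c 2 + c 3 + c 4 + c 5 + c 6 + c 7 : ℕ) : ℤ)
        ((c 1 + c 3 + c 5 + c 7 : ℕ) : ℤ) ((c 2 + c 3 + c 6 + c 7 : ℕ) : ℤ)
        ((c 4 + c 5 + c 6 + c 7 : ℕ) : ℤ) := by
  obtain ⟨h0, h1, h2, h3, h4, h5, h6, h7⟩ := gen_val p q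
  rw [Fin.sum_univ_eight, h0, h1, h2, h3, h4, h5, h6, h7]
  unfold val
  push_cast
  ring

theorem S_of_sum (p q : ℕ) (c : Fin 8 → ℕ) :
    S p q ((∑ j, c j * gen p q j : ℕ) : ℤ) := by
  refine ⟨_, _, _, _, ?_, ?_, ?_, sum_gen p q c⟩ <;> constructor <;> omega

theorem sum_of_S (p q : ℕ) : ∀ (n : ℕ) (a b c : ℤ), (0 ≤ a ∧ a ≤ n) → (0 ≤ b ∧ b ≤ n) →
    (0 ≤ c ∧ c ≤ n) → ∃ d : Fin 8 → ℕ, ((∑ j, d j * gen p q j : ℕ) : ℤ) = val p q n a b c := by
  intro n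
  induction n with
  | zero =>
    intro a b c ha hb hc
    refine ⟨fun _ => 0, ?_⟩
    have : a = 0 := by omega
    have : b = 0 := by omega
    have : c = 0 := by omega
    subst a b c
    simp [val]
  | succ n ih =>
    intro a b c ha hb hc
    obtain ⟨x, hx, hx1, hx2⟩ : ∃ x : ℕ, x ≤ 1 ∧ 0 ≤ a - x ∧ a - x ≤ n := by
      by_cases h : 1 ≤ a
      · exact ⟨1, le_rfl, by omega, by omega⟩
      · exact ⟨0, by omega, by omega, by omega⟩
    obtain ⟨y, hy, hy1, hy2⟩ : ∃ y : ℕ, y ≤ 1 ∧ 0 ≤ b - y ∧ b - y ≤ n := by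
      by_cases h : 1 ≤ b
      · exact ⟨1, le_rfl, by omega, by omega⟩
      · exact ⟨0, by omega, by omega, by omega⟩
    obtain ⟨z, hz, hz1, hz2⟩ : ∃ z : ℕ, z ≤ 1 ∧ 0 ≤ c - z ∧ c - z ≤ n := by
      by_cases h : 1 ≤ c
      · exact ⟨1, le_rfl, by omega, by omega⟩
      · exact ⟨0, by omega, by omega, by omega⟩
    obtain ⟨d, hd⟩ := ih (a - x) (b - y) (c - z) ⟨hx1, hx2⟩ ⟨hy1, hy2⟩ ⟨hz1, hz2⟩
    have hlt : x + 2 * y + 4 * z < 8 := by omega
    refine ⟨fun j => d j + (if j = ⟨x + 2 * y + 4 * z, hlt⟩ then 1 else 0), ?_⟩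
    have e1 : (∑ j, (d j + (if j = (⟨x + 2 * y + 4 * z, hlt⟩ : Fin 8) then 1 else 0)) *
        gen p q j : ℕ) = (∑ j, d j * gen p q j) + gen p q ⟨x + 2 * y + 4 * z, hlt⟩ := by
      simp only [add_mul, Finset.sum_add_distrib, ite_mul, one_mul, zero_mul,
        Finset.sum_ite_eq', Finset.mem_univ, if_true]
    rw [e1]
    push_cast at hd ⊢
    rw [hd]
    have e2 : (gen p q ⟨x + 2 * y + 4 * z, hlt⟩ : ℤ) =
        (p ^ 3 + q ^ 3) + q ^ 2 * x + p * q * y + p ^ 2 * z := by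
      unfold gen
      have f1 : (x + 2 * y + 4 * z) % 2 = x := by omega
      have f2 : (x + 2 * y + 4 * z) / 2 % 2 = y := by omega
      have f3 : (x + 2 * y + 4 * z) / 4 = z := by omega
      simp only [f1, f2, f3]
      push_cast
      ring
    rw [e2]
    unfold val
    ring

theorem sum_iff_S (p q : ℕ) (z : ℤ) :
    (∃ c : Fin 8 → ℕ, ((∑ j, c j * gen p q j : ℕ) : ℤ) = z) ↔ S p q z := by
  constructor
  · rintro ⟨c, rfl⟩; exact S_of_sum p q c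
  · rintro ⟨l, a, b, c, ha, hb, hc, rfl⟩
    obtain ⟨d, hd⟩ := sum_of_S p q l.toNat a b c (by omega) (by omega) (by omega)
    refine ⟨d, ?_⟩
    rw [hd]
    congr 1
    omega

theorem gen_pos {p q : ℕ} (hq : 1 ≤ q) (i : Fin 8) : 0 < gen p q i := by
  unfold gen
  have : 0 < q ^ 3 := by positivity
  omega

theorem gen_inj {q : ℕ} (hq : 1 ≤ q) : Function.Injective (gen (q + 1) q) := by
  obtain ⟨h0, h1, h2, h3, h4, h5, h6, h7⟩ := gen_val (q + 1) q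
  have e1 : 0 < q ^ 2 := by positivity
  have e2 : q ^ 2 < (q + 1) * q := by nlinarith
  have e3 : (q + 1) * q < (q + 1) ^ 2 := by nlinarith
  have e4 : q ^ 2 + (q + 1) * q ≠ (q + 1) ^ 2 := by
    intro h
    have h5 : q ≤ 2 := by
      by_contra h6
      have : 3 ≤ q := by omega
      nlinarith
    interval_cases q <;> simp at h
  generalize (q + 1) ^ 3 + q ^ 3 = A at *
  generalize (q + 1) ^ 2 = γ at *
  generalize (q + 1) * q = β at *
  generalize q ^ 2 = α at *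
  intro i j h
  fin_cases i <;> fin_cases j <;> simp only [Fin.reduceFinMk, Fin.zero_eta, Fin.isValue, Fin.mk_one, h0, h1, h2, h3, h4, h5, h6, h7] at h ⊢ <;>
    omega

theorem gen_lt {q : ℕ} (hq : 1 ≤ q) (i : Fin 8) :
    (q + 1) ^ 3 + q ^ 3 ≤ gen (q + 1) q i ∧ gen (q + 1) q i < 2 * ((q + 1) ^ 3 + q ^ 3) := by
  obtain ⟨h0, h1, h2, h3, h4, h5, h6, h7⟩ := gen_val (q + 1) q
  have e1 : q ^ 2 + (q + 1) * q + (q + 1) ^ 2 < (q + 1) ^ 3 + q ^ 3 := by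
    have : 0 < q ^ 3 := by positivity
    nlinarith
  generalize (q + 1) ^ 3 + q ^ 3 = A at *
  generalize (q + 1) ^ 2 = γ at *
  generalize (q + 1) * q = β at *
  generalize q ^ 2 = α at *
  fin_cases i <;> simp only [Fin.reduceFinMk, Fin.zero_eta, Fin.isValue, Fin.mk_one, h0, h1, h2, h3, h4, h5, h6, h7] <;>
    omega

/-- no generator is a combination of the others -/
theorem gen_min {q : ℕ} (hq : 1 ≤ q) (i : Fin 8) (c : Fin 8 → ℕ) (hc : c i = 0) :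
    ∑ j, c j * gen (q + 1) q j ≠ gen (q + 1) q i := by
  intro h
  have hA : 0 < (q + 1) ^ 3 + q ^ 3 := by positivity
  have h1 : (∑ j, c j) * ((q + 1) ^ 3 + q ^ 3) ≤ ∑ j, c j * gen (q + 1) q j := by
    rw [Finset.sum_mul]
    exact Finset.sum_le_sum (fun j _ => Nat.mul_le_mul_left _ (gen_lt hq j).1)
  have h2 := (gen_lt hq i).2
  have h3 : (∑ j, c j) < 2 := by
    by_contra h3
    have : 2 ≤ ∑ j, c j := by omega
    have := Nat.mul_le_mul_right ((q + 1) ^ 3 + q ^ 3) this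
    omega
  have h4 : (∑ j, c j) ≠ 0 := by
    intro h4
    rw [Finset.sum_eq_zero_iff] at h4
    rw [Finset.sum_eq_zero (fun j hj => by rw [h4 j hj, zero_mul])] at h
    have := (gen_lt hq i).1
    omega
  have h5 : (∑ j, c j) = 1 := by omega
  obtain ⟨j, hj⟩ : ∃ j, c j ≠ 0 := by
    by_contra hcon
    push Not at hcon
    exact h4 (Finset.sum_eq_zero (fun j _ => hcon j))
  have h6 : ∑ l ∈ Finset.univ.erase j, c l + c j = 1 := by
    rw [Finset.sum_erase_add _ _ (Finset.mem_univ j)]; exact h5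
  have h7 : c j = 1 := by omega
  have h8 : ∑ l ∈ Finset.univ.erase j, c l = 0 := by omega
  rw [Finset.sum_eq_zero_iff] at h8
  have h9 : ∑ l, c l * gen (q + 1) q l = gen (q + 1) q j := by
    rw [Finset.sum_eq_single j]
    · rw [h7, one_mul]
    · intro l _ hl
      rw [h8 l (Finset.mem_erase.mpr ⟨hl, Finset.mem_univ l⟩), zero_mul]
    · intro h; exact absurd (Finset.mem_univ j) h
  rw [h9] at h
  have := gen_inj hq h
  subst this
  omega

theorem cop (q : ℤ) : IsCoprime (q + 1) q := ⟨1, -1, by ring⟩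

theorem gen_gcd {q : ℕ} : Finset.univ.gcd (gen (q + 1) q) = 1 := by
  obtain ⟨h0, h1, h2, h3, h4, h5, h6, h7⟩ := gen_val (q + 1) q
  have d0 := Finset.gcd_dvd (s := Finset.univ) (f := gen (q + 1) q) (Finset.mem_univ 0)
  have d1 := Finset.gcd_dvd (s := Finset.univ) (f := gen (q + 1) q) (Finset.mem_univ 1)
  have d4 := Finset.gcd_dvd (s := Finset.univ) (f := gen (q + 1) q) (Finset.mem_univ 4)
  rw [h0] at d0
  rw [h1, Nat.dvd_add_right d0] at d1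
  rw [h4, Nat.dvd_add_right d0] at d4
  have hcop : Nat.Coprime ((q + 1) ^ 2) (q ^ 2) := Nat.Coprime.pow _ _ (by simp)
  exact Nat.eq_one_of_dvd_coprimes hcop d4 d1

end Pool.Agent.Helper604.Cube
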