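import Mathlib

set_option autoImplicit false
open Classical

namespace Pool.Agent.Helper604.Koszul

variable {k : Type} [Field k] {e : ℕ}

/-- the face condition -/
def Pres (Γ : AddSubmonoid ℕ) (a : Fin e → ℕ) (s i : ℕ) (F : Finset (Fin e)) : Prop :=
  F.card = i ∧ ∃ t ∈ Γ, t + ∑ j ∈ F, a j = s

/-- the Koszul differential in degree `s` -/
noncomputable def Mt (k : Type) [Field k] (Γ : AddSubmonoid ℕ) (a : Fin e → ℕ) (s i : ℕ) :
    Matrix (Finset (Fin e)) (Finset (Fin e)) k :=
  Matrix.of (fun G F : Finset (Fin e) =>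
    if F.card = i ∧ ∃ t ∈ Γ, t + ∑ j ∈ F, a j = s then
      ∑ j ∈ F, (if G = F.erase j then
        (-1 : k) ^ (F.filter (fun l => l < j)).card else 0)
    else 0)

/-- the faces -/
noncomputable def Cc (Γ : AddSubmonoid ℕ) (a : Fin e → ℕ) (s i : ℕ) : Finset (Finset (Fin e)) :=
  (Finset.univ : Finset (Finset (Fin e))).filter
    (fun F => F.card = i ∧ ∃ t ∈ Γ, t + ∑ j ∈ F, a j = s)

/-- dimension of the Koszul homology in degree `s` -/
noncomputable def Hd (k : Type) [Field k] (Γ : AddSubmonoid ℕ) (a : Fin e → ℕ) (i s : ℕ) : ℕ :=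
  (Cc Γ a s i).card - (Mt k Γ a s i).rank - (Mt k Γ a s (i + 1)).rank

theorem rank_ge {m n ι : Type} [Fintype m] [Fintype n] [Fintype ι]
    (A : Matrix m n k) (c : ι → n) (r : ι → m) (h0 : ∀ i, A (r i) (c i) ≠ 0)
    (h1 : ∀ i i', i ≠ i' → A (r i) (c i') = 0) : Fintype.card ι ≤ A.rank := by
  have hli : LinearIndependent k (fun i => A.col (c i)) := by
    rw [Fintype.linearIndependent_iff]
    intro g hg i
    have := congrFun hg (r i)
    simp only [Finset.sum_apply, Pi.smul_apply, smul_eq_mul, Pi.zero_apply, Matrix.col_apply] at this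
    rw [Finset.sum_eq_single i] at this
    · rcases mul_eq_zero.mp this with h | h
      · exact h
      · exact absurd h (h0 i)
    · intro j _ hj
      rw [h1 i j (Ne.symm hj), mul_zero]
    · intro h; exact absurd (Finset.mem_univ i) h
  have h2 := finrank_span_eq_card hli
  rw [← h2, Matrix.rank_eq_finrank_span_cols]
  apply Submodule.finrank_mono
  apply Submodule.span_mono
  rintro _ ⟨i, rfl⟩
  exact ⟨c i, rfl⟩

theorem Mt_apply (Γ : AddSubmonoid ℕ) (a : Fin e → ℕ) (s i : ℕ) (G F : Finset (Fin e)) :
    Mt k Γ a s i G F = if F.card = i ∧ ∃ t ∈ Γ, t + ∑ j ∈ F, a j = s then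
      ∑ j ∈ F, (if G = F.erase j then
        (-1 : k) ^ (F.filter (fun l => l < j)).card else 0)
    else 0 := rfl

/-- the entry at an erased face -/
theorem Mt_erase (Γ : AddSubmonoid ℕ) (a : Fin e → ℕ) (s i : ℕ) (F : Finset (Fin e)) (j : Fin e)
    (hj : j ∈ F) (hF : F.card = i ∧ ∃ t ∈ Γ, t + ∑ j ∈ F, a j = s) :
    Mt k Γ a s i (F.erase j) F ≠ 0 := by
  rw [Mt_apply, if_pos hF, Finset.sum_eq_single j]
  · rw [if_pos rfl]
    exact pow_ne_zero _ (by simp)
  · intro l hl hlj
    rw [if_neg]
    intro h
    have h1 : l ∈ F.erase j := Finset.mem_erase.mpr ⟨hlj, hl⟩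
    rw [h] at h1
    exact absurd rfl (Finset.mem_erase.mp h1).1
  · intro h; exact absurd hj h

theorem Mt_ne (Γ : AddSubmonoid ℕ) (a : Fin e → ℕ) (s i : ℕ) (G F : Finset (Fin e))
    (h : ∀ j ∈ F, G ≠ F.erase j) : Mt k Γ a s i G F = 0 := by
  rw [Mt_apply]
  split_ifs
  · apply Finset.sum_eq_zero
    intro j hj
    rw [if_neg (h j hj)]
  · rfl

/-- upper bound in the top degree -/
theorem Hd_top (Γ : AddSubmonoid ℕ) (a : Fin (e + 1) → ℕ) (s : ℕ) :
    Hd k Γ a e s ≤ 1 ∧ (Hd k Γ a e s ≠ 0 →
      (∀ j, ∃ t ∈ Γ, t + ∑ l ∈ Finset.univ.erase j, a l = s) ∧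
        ¬ ∃ t ∈ Γ, t + ∑ l, a l = s) := by
  -- the set of j with the face univ.erase j present
  let J : Finset (Fin (e + 1)) := Finset.univ.filter
    (fun j => ∃ t ∈ Γ, t + ∑ l ∈ Finset.univ.erase j, a l = s)
  have hJ : ∀ j, j ∈ J ↔ ∃ t ∈ Γ, t + ∑ l ∈ Finset.univ.erase j, a l = s := by
    intro j; simp [J]
  have hcard : (Cc Γ a s e).card = J.card := by
    have : Cc Γ a s e = J.image (fun j => Finset.univ.erase j) := by
      ext F
      simp only [Cc, Finset.mem_filter, Finset.mem_univ, true_and, Finset.mem_image]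
      constructor
      · rintro ⟨h1, h2⟩
        have h3 : (Finset.univ \ F).card = 1 := by
          rw [Finset.card_sdiff_of_subset (Finset.subset_univ F), Finset.card_univ, Fintype.card_fin]
          omega
        obtain ⟨j, hj⟩ := Finset.card_eq_one.mp h3
        have h4 : F = Finset.univ.erase j := by
          ext x
          rw [Finset.mem_erase]
          have : x ∈ Finset.univ \ F ↔ x = j := by rw [hj]; simp
          rw [Finset.mem_sdiff] at this
          simp only [Finset.mem_univ, true_and] at this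
          constructor
          · intro hx; exact ⟨fun h => (this.mpr h) hx, Finset.mem_univ x⟩
          · rintro ⟨hx, _⟩; by_contra hxF; exact hx (this.mp hxF)
        refine ⟨j, ?_, h4.symm⟩
        rw [hJ, ← h4]; exact h2
      · rintro ⟨j, hj, rfl⟩
        rw [hJ] at hj
        refine ⟨?_, hj⟩
        rw [Finset.card_erase_of_mem (Finset.mem_univ j), Finset.card_univ, Fintype.card_fin]
        omega
    rw [this, Finset.card_image_of_injective]
    intro j l h
    by_contra hne
    have h1 : j ∈ (Finset.univ : Finset (Fin (e + 1))).erase l :=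
      Finset.mem_erase.mpr ⟨hne, Finset.mem_univ j⟩
    simp only at h
    rw [← h] at h1
    exact absurd rfl (Finset.mem_erase.mp h1).1
  have hrank : ∀ l0, (J.erase l0).card ≤ (Mt k Γ a s e).rank := by
    intro l0
    have := rank_ge (ι := {j // j ∈ J.erase l0}) (Mt k Γ a s e)
      (fun j => Finset.univ.erase j.1) (fun j => (Finset.univ.erase j.1).erase l0) ?_ ?_
    · rwa [Fintype.card_coe] at this
    · rintro ⟨j, hj⟩
      rw [Finset.mem_erase] at hj
      apply Mt_erase
      · exact Finset.mem_erase.mpr ⟨Ne.symm hj.1, Finset.mem_univ _⟩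
      · refine ⟨?_, (hJ j).mp hj.2⟩
        rw [Finset.card_erase_of_mem (Finset.mem_univ j), Finset.card_univ, Fintype.card_fin]
        omega
    · rintro ⟨j, hj⟩ ⟨j', hj'⟩ hne
      have hne' : j ≠ j' := fun h => hne (by simp [h])
      rw [Finset.mem_erase] at hj hj'
      apply Mt_ne
      intro l _ h
      have h1 : j' ∈ (Finset.univ.erase j).erase l0 := by
        rw [Finset.mem_erase, Finset.mem_erase]
        exact ⟨hj'.1, Ne.symm hne', Finset.mem_univ _⟩
      simp only at h
      rw [h] at h1
      rw [Finset.mem_erase, Finset.mem_erase] at h1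
      exact h1.2.1 rfl
  by_cases hall : J = Finset.univ
  · have hJc : J.card = e + 1 := by rw [hall]; simp
    have h1 := hrank 0
    rw [hall, Finset.card_erase_of_mem (Finset.mem_univ _), Finset.card_univ, Fintype.card_fin] at h1
    constructor
    · unfold Hd
      rw [hcard, hJc]
      omega
    · intro h
      refine ⟨fun j => (hJ j).mp (by rw [hall]; exact Finset.mem_univ j), ?_⟩
      rintro hex
      have h2 := rank_ge (ι := Unit) (Mt k Γ a s (e + 1))
        (fun _ => Finset.univ) (fun _ => Finset.univ.erase 0)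
        (fun _ => Mt_erase Γ a s (e + 1) Finset.univ 0 (Finset.mem_univ _)
          ⟨by simp, hex⟩) (fun i i' h => absurd (Subsingleton.elim i i') h)
      simp only [Fintype.card_unit] at h2
      apply h
      unfold Hd
      rw [hcard, hJc]
      omega
  · have : ∃ l0, l0 ∉ J := by
      by_contra hcon
      push Not at hcon
      exact hall (Finset.eq_univ_iff_forall.mpr hcon)
    obtain ⟨l0, hl0⟩ := this
    have h1 := hrank l0
    rw [Finset.erase_eq_of_notMem hl0] at h1
    have : Hd k Γ a e s = 0 := by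
      unfold Hd
      rw [hcard]
      omega
    rw [this]
    exact ⟨by omega, fun h => absurd rfl h⟩

/-- the differential to degree zero has rank at most one -/
theorem rank_one (Γ : AddSubmonoid ℕ) (a : Fin e → ℕ) (s : ℕ) : (Mt k Γ a s 1).rank ≤ 1 := by
  have h : Mt k Γ a s 1 = (Matrix.of (fun (G : Finset (Fin e)) (_ : Fin 1) =>
      if G = ∅ then (1 : k) else 0)) * (Matrix.of (fun (_ : Fin 1) (F : Finset (Fin e)) =>
        Mt k Γ a s 1 ∅ F)) := by
    ext G F
    rw [Matrix.mul_apply]
    simp only [Finset.univ_unique, Fin.default_eq_zero, Fin.isValue, Matrix.of_apply,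
      Finset.sum_singleton, ite_mul, one_mul, zero_mul]
    split_ifs with hG
    · rw [hG]
    · by_cases hF : F.card = 1
      · apply Mt_ne
        obtain ⟨j, rfl⟩ := Finset.card_eq_one.mp hF
        intro l hl h
        rw [Finset.mem_singleton] at hl
        subst hl
        apply hG
        rw [h]
        simp
      · rw [Mt_apply, if_neg (fun h => hF h.1)]
  rw [h]
  refine (Matrix.rank_mul_le_left _ _).trans ?_
  simpa using Matrix.rank_le_card_width (Matrix.of (fun (G : Finset (Fin e)) (_ : Fin 1) =>
      if G = ∅ then (1 : k) else 0))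

/-- lower bound for the first Betti number in a split degree -/
theorem Hd_one (Γ : AddSubmonoid ℕ) (a : Fin e → ℕ) (haΓ : ∀ j, a j ∈ Γ) (s : ℕ)
    (T : Finset (Fin e))
    (hT : ∀ j l, j ∈ T → l ∉ T → ¬ ∃ t ∈ Γ, t + (a j + a l) = s)
    (h1 : ∃ j, j ∈ T ∧ ∃ t ∈ Γ, t + a j = s) (h2 : ∃ j, j ∉ T ∧ ∃ t ∈ Γ, t + a j = s) :
    1 ≤ Hd k Γ a 1 s := by
  obtain ⟨j1, hj1, ht1⟩ := h1
  obtain ⟨j2, hj2, ht2⟩ := h2
  have hr1 := rank_one (k := k) Γ a s
  -- membership in the set of vertices
  have hC : ∀ j, ({j} : Finset (Fin e)) ∈ Cc Γ a s 1 ↔ ∃ t ∈ Γ, t + a j = s := by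
    intro j; simp [Cc]
  let D' : Fin 2 → Finset (Fin e) → k := fun r G =>
    if r = 0 then (if ∃ j ∈ G, j ∈ T then 1 else 0) else (if ∃ j ∈ G, j ∈ T then 0 else 1)
  let D : Matrix (Fin 2) {G // G ∈ Cc Γ a s 1} k := Matrix.of (fun r G => D' r G.1)
  let N : Matrix {G // G ∈ Cc Γ a s 1} (Finset (Fin e)) k :=
    Matrix.of (fun G F => Mt k Γ a s 2 G.1 F)
  let E : Matrix (Finset (Fin e)) {G // G ∈ Cc Γ a s 1} k :=
    Matrix.of (fun G G' => if G = G'.1 then 1 else 0)
  have hout : ∀ G F, G ∉ Cc Γ a s 1 → Mt k Γ a s 2 G F = 0 := by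
    intro G F hG
    by_cases hF : F.card = 2 ∧ ∃ t ∈ Γ, t + ∑ j ∈ F, a j = s
    · apply Mt_ne
      intro j hj h
      apply hG
      obtain ⟨hc, t, ht, hts⟩ := hF
      simp only [Cc, Finset.mem_filter, Finset.mem_univ, true_and]
      refine ⟨?_, t + a j, add_mem ht (haΓ j), ?_⟩
      · rw [h, Finset.card_erase_of_mem hj, hc]
      · rw [h, add_assoc, Finset.add_sum_erase _ _ hj]; exact hts
    · rw [Mt_apply, if_neg hF]
  have hEN : Mt k Γ a s 2 = E * N := by
    ext G F
    rw [Matrix.mul_apply]
    by_cases hG : G ∈ Cc Γ a s 1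
    · rw [Finset.sum_eq_single (⟨G, hG⟩ : {G // G ∈ Cc Γ a s 1})]
      · simp [E, N]
      · intro b _ hb
        simp only [E, Matrix.of_apply]
        rw [if_neg (fun h => hb (Subtype.ext h.symm)), zero_mul]
      · intro h; exact absurd (Finset.mem_univ _) h
    · rw [hout G F hG]
      symm
      apply Finset.sum_eq_zero
      intro b _
      simp only [E, Matrix.of_apply]
      rw [if_neg (fun h : G = b.1 => hG (by rw [h]; exact b.2)), zero_mul]
  have hDN : D * N = 0 := by
    ext r F
    rw [Matrix.mul_apply, Matrix.zero_apply]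
    have e1 : ∑ G : {G // G ∈ Cc Γ a s 1}, D r G * N G F =
        ∑ G : Finset (Fin e), D' r G * Mt k Γ a s 2 G F := by
      rw [← Finset.sum_subset (Finset.subset_univ (Cc Γ a s 1))
        (fun G _ hG => by rw [hout G F hG, mul_zero])]
      exact Finset.sum_coe_sort (Cc Γ a s 1) (fun G => D' r G * Mt k Γ a s 2 G F)
    rw [e1]
    by_cases hF : F.card = 2 ∧ ∃ t ∈ Γ, t + ∑ j ∈ F, a j = s
    · simp only [Mt_apply, if_pos hF, Finset.mul_sum]
      rw [Finset.sum_comm]
      have e2 : ∀ x ∈ F, ∑ G : Finset (Fin e), D' r G * (if G = F.erase x then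
          (-1 : k) ^ (F.filter (fun l => l < x)).card else 0) =
          D' r (F.erase x) * (-1 : k) ^ (F.filter (fun l => l < x)).card := by
        intro x _
        rw [Finset.sum_eq_single (F.erase x)]
        · rw [if_pos rfl]
        · intro G _ hG; rw [if_neg hG, mul_zero]
        · intro h; exact absurd (Finset.mem_univ _) h
      rw [Finset.sum_congr rfl e2]
      obtain ⟨hc, t, ht, hts⟩ := hF
      obtain ⟨x, y, hxy, hFxy⟩ := Finset.card_eq_two.mp hc
      have main : ∀ x y : Fin e, x < y → F = {x, y} → ∑ x ∈ F, D' r (F.erase x) *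
          (-1 : k) ^ (F.filter (fun l => l < x)).card = 0 := by
        intro x y hxy hF
        have hne : x ≠ y := ne_of_lt hxy
        rw [hF, Finset.sum_pair hne]
        have f1 : ({x, y} : Finset (Fin e)).erase x = {y} := by
          ext z; simp only [Finset.mem_erase, Finset.mem_insert, Finset.mem_singleton]
          constructor
          · rintro ⟨h, h' | h'⟩
            · exact absurd h' h
            · exact h'
          · rintro rfl; exact ⟨hne.symm, Or.inr rfl⟩
        have f2 : ({x, y} : Finset (Fin e)).erase y = {x} := by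
          ext z; simp only [Finset.mem_erase, Finset.mem_insert, Finset.mem_singleton]
          constructor
          · rintro ⟨h, h' | h'⟩
            · exact h'
            · exact absurd h' h
          · rintro rfl; exact ⟨hne, Or.inl rfl⟩
        have f3 : (({x, y} : Finset (Fin e)).filter (fun l => l < x)).card = 0 := by
          rw [Finset.card_eq_zero, Finset.filter_eq_empty_iff]
          intro z hz
          simp only [Finset.mem_insert, Finset.mem_singleton] at hz
          rcases hz with rfl | rfl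
          · exact lt_irrefl _
          · exact not_lt.mpr hxy.le
        have f4 : (({x, y} : Finset (Fin e)).filter (fun l => l < y)).card = 1 := by
          rw [Finset.card_eq_one]
          refine ⟨x, ?_⟩
          ext z
          simp only [Finset.mem_filter, Finset.mem_insert, Finset.mem_singleton]
          constructor
          · rintro ⟨rfl | rfl, h⟩
            · rfl
            · exact absurd h (lt_irrefl _)
          · rintro rfl; exact ⟨Or.inl rfl, hxy⟩
        rw [f1, f2, f3, f4]
        have f5 : D' r {x} = D' r {y} := by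
          have hpres : t + (a x + a y) = s := by
            rw [hF, Finset.sum_pair hne] at hts; exact hts
          have : x ∈ T ↔ y ∈ T := by
            constructor
            · intro hx
              by_contra hy
              exact hT x y hx hy ⟨t, ht, hpres⟩
            · intro hy
              by_contra hx
              exact hT y x hy hx ⟨t, ht, by rw [add_comm (a y)]; exact hpres⟩
          simp only [D', Finset.mem_singleton, exists_eq_left, this]
        rw [f5]
        ring
      rcases lt_trichotomy x y with h | h | h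
      · exact main x y h hFxy
      · exact absurd h hxy
      · exact main y x h (by rw [hFxy, Finset.pair_comm])
    · apply Finset.sum_eq_zero
      intro G _
      rw [Mt_apply, if_neg hF, mul_zero]
  have hD : 2 ≤ D.rank := by
    have := rank_ge (ι := Fin 2) D
      (fun r => if r = 0 then ⟨{j1}, (hC j1).mpr ht1⟩ else ⟨{j2}, (hC j2).mpr ht2⟩) (fun r => r) ?_ ?_
    · simpa using this
    · intro r
      fin_cases r <;> simp [D, D', hj1, hj2]
    · intro r r' hrr
      fin_cases r <;> fin_cases r' <;> simp [D, D', hj1, hj2] at hrr ⊢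
  have h3 := Matrix.rank_add_rank_le_card_of_mul_eq_zero hDN
  rw [Fintype.card_coe] at h3
  have h4 : (Mt k Γ a s 2).rank ≤ N.rank := by
    rw [hEN]; exact Matrix.rank_mul_le_right _ _
  unfold Hd
  simp only [Nat.reduceAdd]
  omega

end Pool.Agent.Helper604.Koszul
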