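import Pool.Agent.Helper604.CubeRel
import Pool.Agent.Helper604.Koszul

set_option autoImplicit false

namespace Pool.Agent.Helper604.Cube

open Pool.Agent.Helper604.Koszul

/-- the symmetric semigroup -/
def Gq (q : ℕ) : AddSubmonoid ℕ := AddSubmonoid.closure (Set.range (gen (q + 1) q))

theorem sum_mem_closure {e : ℕ} (a : Fin e → ℕ) (c : Fin e → ℕ) :
    ∑ j, c j * a j ∈ AddSubmonoid.closure (Set.range a) := by
  apply AddSubmonoid.sum_mem
  intro j _
  rw [← smul_eq_mul]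
  exact AddSubmonoid.nsmul_mem _ (AddSubmonoid.subset_closure (Set.mem_range_self j)) _

theorem exists_sum {e : ℕ} (a : Fin e → ℕ) (K : Set (Fin e)) (n : ℕ)
    (hn : n ∈ AddSubmonoid.closure (a '' K)) :
    ∃ c : Fin e → ℕ, (∀ j, j ∉ K → c j = 0) ∧ ∑ j, c j * a j = n := by
  induction hn using AddSubmonoid.closure_induction with
  | mem x hx =>
    obtain ⟨j, hj, rfl⟩ := hx
    refine ⟨fun l => if l = j then 1 else 0, ?_, ?_⟩
    · intro l hl
      simp only
      rw [if_neg]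
      rintro rfl
      exact hl hj
    · simp
  | zero => exact ⟨fun _ => 0, fun _ _ => rfl, by simp⟩
  | add x y _ _ hx hy =>
    obtain ⟨c, hc, rfl⟩ := hx
    obtain ⟨d, hd, rfl⟩ := hy
    refine ⟨fun j => c j + d j, fun j hj => by simp only [hc j hj, hd j hj], ?_⟩
    simp only [add_mul, Finset.sum_add_distrib]

theorem mem_Gq (q n : ℕ) : n ∈ Gq q ↔ ∃ c : Fin 8 → ℕ, ∑ j, c j * gen (q + 1) q j = n := by
  constructor
  · intro h
    unfold Gq at h
    rw [← Set.image_univ] at h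
    obtain ⟨c, _, hc⟩ := exists_sum _ _ _ h
    exact ⟨c, hc⟩
  · rintro ⟨c, rfl⟩
    exact sum_mem_closure _ _

theorem mem_Gq_S (q n : ℕ) : n ∈ Gq q ↔ S ((q + 1 : ℕ) : ℤ) q (n : ℤ) := by
  rw [mem_Gq, ← sum_iff_S]
  constructor
  · rintro ⟨c, hc⟩; exact ⟨c, by rw [hc]⟩
  · rintro ⟨c, hc⟩; exact ⟨c, by exact_mod_cast hc⟩

theorem S_nonneg' {p q : ℤ} (hp : 0 ≤ p) (hq : 0 ≤ q) {v : ℤ} (h : S p q v) : 0 ≤ v := by
  obtain ⟨l, a, b, c, ha, hb, hc, rfl⟩ := h
  have h1 : 0 ≤ (p ^ 3 + q ^ 3) * l := mul_nonneg (by positivity) (by omega)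
  have h2 : 0 ≤ q ^ 2 * a := mul_nonneg (by positivity) ha.1
  have h3 : 0 ≤ p * q * b := mul_nonneg (by positivity) hb.1
  have h4 : 0 ≤ p ^ 2 * c := mul_nonneg (by positivity) hc.1
  unfold val
  linarith

theorem Gq_compl {q : ℕ} (hq : 1 ≤ q) : ((Gq q : Set ℕ)ᶜ).Finite := by
  apply (Set.finite_Iic (Fr ((q + 1 : ℕ) : ℤ) q).toNat).subset
  intro n hn
  rw [Set.mem_compl_iff, SetLike.mem_coe, mem_Gq_S] at hn
  rw [Set.mem_Iic]
  by_contra hlt
  have := (sym_iff (p := ((q + 1 : ℕ) : ℤ)) (q := (q : ℤ)) (by exact_mod_cast hq)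
    (by push_cast; ring) (by push_cast; exact cop q) n).not.mp hn
  rw [not_not] at this
  have := S_nonneg' (by positivity) (by positivity) this
  omega

theorem Gq_min {q : ℕ} (hq : 1 ≤ q) (j : Fin 8) :
    gen (q + 1) q j ∉ AddSubmonoid.closure (gen (q + 1) q '' {l | l ≠ j}) := by
  intro h
  obtain ⟨c, hc, hs⟩ := exists_sum _ _ _ h
  exact gen_min hq j c (hc j (by simp)) hs

theorem Gq_sym {q : ℕ} (hq : 1 ≤ q) : ∃ F : ℤ, ∀ z : ℤ,
    ((∃ m ∈ Gq q, (m : ℤ) = z) ↔ ¬ ∃ m ∈ Gq q, (m : ℤ) = F - z) := by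
  have key : ∀ z : ℤ, (∃ m ∈ Gq q, (m : ℤ) = z) ↔ S ((q + 1 : ℕ) : ℤ) q z := by
    intro z
    constructor
    · rintro ⟨m, hm, rfl⟩; exact (mem_Gq_S q m).mp hm
    · intro h
      have h0 := S_nonneg' (by positivity) (by positivity) h
      refine ⟨z.toNat, ?_, Int.toNat_of_nonneg h0⟩
      rw [mem_Gq_S, Int.toNat_of_nonneg h0]; exact h
  refine ⟨Fr ((q + 1 : ℕ) : ℤ) q, fun z => ?_⟩
  rw [key, key]
  exact sym_iff (by exact_mod_cast hq) (by push_cast; ring) (by push_cast; exact cop q) z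

/-- first Betti number at the special degrees -/
theorem Hd_deg (k : Type) [Field k] {q : ℕ} (hq : 1 ≤ q) {n : ℕ} (hn1 : 1 ≤ n) (hn2 : n ≤ q) :
    1 ≤ Hd k (Gq q) (gen (q + 1) q) 1 (deg q n) := by
  refine Hd_one (Gq q) (gen (q + 1) q)
    (fun j => AddSubmonoid.subset_closure (Set.mem_range_self j)) (deg q n) {2, 3} ?_ ?_ ?_
  · rintro j l hj hl ⟨t, ht, hs⟩
    obtain ⟨c, hc⟩ := (mem_Gq q t).mp ht
    have hne : j ≠ l := by rintro rfl; exact hl hj
    have h1 : ∑ i, (c i + (if i = j then 1 else 0) + (if i = l then 1 else 0)) *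
        gen (q + 1) q i = deg q n := by
      simp only [add_mul, Finset.sum_add_distrib, ite_mul, one_mul, zero_mul,
        Finset.sum_ite_eq', Finset.mem_univ, if_true]
      rw [hc, ← hs]
      ring
    rcases two_types hq hn1 hn2 _ h1 with h | h
    · have := h l hl
      simp at this
    · have := h j hj
      simp at this
  · obtain ⟨u, hu1, hu2⟩ := exists_type1 (q := q) (n := n) hn2
    have : ∃ j, j ∈ ({2, 3} : Finset (Fin 8)) ∧ u j ≠ 0 := by
      by_contra hcon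
      push Not at hcon
      have h0 : ∑ j, u j * gen (q + 1) q j = 0 := by
        apply Finset.sum_eq_zero
        intro i _
        by_cases hi : i ∈ ({2, 3} : Finset (Fin 8))
        · rw [hcon i hi, zero_mul]
        · rw [hu1 i hi, zero_mul]
      rw [h0] at hu2
      have : 0 < deg q n := by unfold deg; positivity
      omega
    obtain ⟨j, hj, huj⟩ := this
    refine ⟨j, hj, ∑ i, (u i - if i = j then 1 else 0) * gen (q + 1) q i, (mem_Gq q _).mpr ⟨_, rfl⟩, ?_⟩
    rw [← hu2, ← Finset.add_sum_erase Finset.univ (fun i => u i * gen (q + 1) q i) (Finset.mem_univ j),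
      ← Finset.add_sum_erase Finset.univ (fun i => (u i - if i = j then 1 else 0) * gen (q + 1) q i)
        (Finset.mem_univ j)]
    simp only [if_true]
    have h1 : ∑ x ∈ Finset.univ.erase j, (u x - if x = j then 1 else 0) * gen (q + 1) q x =
        ∑ x ∈ Finset.univ.erase j, u x * gen (q + 1) q x := by
      apply Finset.sum_congr rfl
      intro x hx
      rw [if_neg (Finset.mem_erase.mp hx).1, Nat.sub_zero]
    rw [h1]
    obtain ⟨m, hm⟩ : ∃ m, u j = m + 1 := ⟨u j - 1, by omega⟩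
    rw [hm]
    simp only [Nat.add_sub_cancel]
    ring
  · obtain ⟨u, hu1, hu2⟩ := exists_type2 (q := q) (n := n) hn1 hn2
    push Not at hu1
    obtain ⟨j, hj, huj⟩ := hu1
    refine ⟨j, hj, ∑ i, (u i - if i = j then 1 else 0) * gen (q + 1) q i, (mem_Gq q _).mpr ⟨_, rfl⟩, ?_⟩
    rw [← hu2, ← Finset.add_sum_erase Finset.univ (fun i => u i * gen (q + 1) q i) (Finset.mem_univ j),
      ← Finset.add_sum_erase Finset.univ (fun i => (u i - if i = j then 1 else 0) * gen (q + 1) q i)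
        (Finset.mem_univ j)]
    simp only [if_true]
    have h1 : ∑ x ∈ Finset.univ.erase j, (u x - if x = j then 1 else 0) * gen (q + 1) q x =
        ∑ x ∈ Finset.univ.erase j, u x * gen (q + 1) q x := by
      apply Finset.sum_congr rfl
      intro x hx
      rw [if_neg (Finset.mem_erase.mp hx).1, Nat.sub_zero]
    rw [h1]
    obtain ⟨m, hm⟩ : ∃ m, u j = m + 1 := ⟨u j - 1, by omega⟩
    rw [hm]
    simp only [Nat.add_sub_cancel]
    ring

theorem summable_enat {ι : Type} (f : ι → ℕ∞) : Summable f :=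
  ⟨_, hasSum_of_isLUB _ (isLUB_iSup (f := fun s : Finset ι => ∑ i ∈ s, f i))⟩

theorem tsum_one_ge (k : Type) [Field k] {q : ℕ} (hq : 1 ≤ q) :
    (q : ℕ∞) ≤ ∑' s : ℕ, ((Hd k (Gq q) (gen (q + 1) q) 1 s : ℕ) : ℕ∞) := by
  have hinj : Function.Injective (fun n : Fin q => deg q (n + 1)) := by
    intro n m h
    have := deg_inj hq h
    ext
    omega
  calc (q : ℕ∞) = ∑ s ∈ (Finset.univ.image (fun n : Fin q => deg q (n + 1))), (1 : ℕ∞) := by
        rw [Finset.sum_const, Finset.card_image_of_injective _ hinj]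
        simp
    _ ≤ ∑ s ∈ (Finset.univ.image (fun n : Fin q => deg q (n + 1))),
          ((Hd k (Gq q) (gen (q + 1) q) 1 s : ℕ) : ℕ∞) := by
        apply Finset.sum_le_sum
        intro s hs
        rw [Finset.mem_image] at hs
        obtain ⟨n, _, rfl⟩ := hs
        exact_mod_cast Hd_deg k hq (n := n + 1) (by omega) (by omega)
    _ ≤ _ := (summable_enat _).sum_le_tsum _ (fun _ _ => zero_le)

/-- top Betti number of a symmetric semigroup -/
theorem tsum_top_le (k : Type) [Field k] {e : ℕ} (Γ : AddSubmonoid ℕ) (a : Fin (e + 1) → ℕ)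
    (ha : Γ = AddSubmonoid.closure (Set.range a))
    (hsym : ∃ F : ℤ, ∀ z : ℤ, ((∃ m ∈ Γ, (m : ℤ) = z) ↔ ¬ ∃ m ∈ Γ, (m : ℤ) = F - z)) :
    ∑' s : ℕ, ((Hd k Γ a e s : ℕ) : ℕ∞) ≤ 1 := by
  obtain ⟨F, hF⟩ := hsym
  have hFn : ¬ ∃ m ∈ Γ, (m : ℤ) = F := by
    rw [hF, not_not]
    exact ⟨0, zero_mem _, by simp⟩
  have hsplit : ∀ n ∈ Γ, n ≠ 0 → ∃ j, ∃ t ∈ Γ, n = a j + t := by
    intro n hn hn0
    have hn' := hn
    rw [ha, ← Set.image_univ] at hn'
    obtain ⟨c, _, hc⟩ := exists_sum _ _ _ hn'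
    have : ∃ j, c j ≠ 0 := by
      by_contra hcon
      push Not at hcon
      apply hn0
      rw [← hc]
      exact Finset.sum_eq_zero (fun j _ => by rw [hcon j, zero_mul])
    obtain ⟨j, hj⟩ := this
    refine ⟨j, ∑ i, (c i - if i = j then 1 else 0) * a i, ?_, ?_⟩
    · rw [ha]; exact sum_mem_closure _ _
    · rw [← hc, ← Finset.add_sum_erase Finset.univ (fun i => c i * a i) (Finset.mem_univ j),
        ← Finset.add_sum_erase Finset.univ (fun i => (c i - if i = j then 1 else 0) * a i)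
          (Finset.mem_univ j)]
      simp only [if_true]
      have h1 : ∑ x ∈ Finset.univ.erase j, (c x - if x = j then 1 else 0) * a x =
          ∑ x ∈ Finset.univ.erase j, c x * a x := by
        apply Finset.sum_congr rfl
        intro x hx
        rw [if_neg (Finset.mem_erase.mp hx).1, Nat.sub_zero]
      rw [h1]
      obtain ⟨m, hm⟩ : ∃ m, c j = m + 1 := ⟨c j - 1, by omega⟩
      rw [hm]
      simp only [Nat.add_sub_cancel]
      ring
  have huniq : ∀ s, Hd k Γ a e s ≠ 0 → (s : ℤ) = F + (∑ l, a l : ℕ) := by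
    intro s hs
    obtain ⟨h1, h2⟩ := (Hd_top (k := k) Γ a s).2 hs
    have h3 : ¬ ∃ m ∈ Γ, (m : ℤ) = (s : ℤ) - (∑ l, a l : ℕ) := by
      rintro ⟨m, hm, hms⟩
      apply h2
      refine ⟨m, hm, ?_⟩
      have : (m : ℤ) + (∑ l, a l : ℕ) = s := by linarith
      exact_mod_cast this
    rw [hF, not_not] at h3
    obtain ⟨m, hm, hms⟩ := h3
    by_cases hm0 : m = 0
    · subst hm0
      push_cast at hms ⊢
      linarith
    · exfalso
      obtain ⟨j, t, ht, rfl⟩ := hsplit m hm hm0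
      obtain ⟨t', ht', hs'⟩ := h1 j
      apply hFn
      refine ⟨t' + t, add_mem ht' ht, ?_⟩
      have h4 := Finset.add_sum_erase Finset.univ a (Finset.mem_univ j)
      have h5 : (a j : ℤ) + (∑ x ∈ Finset.univ.erase j, a x : ℕ) = (∑ l, a l : ℕ) := by
        exact_mod_cast h4
      have h6 : (t' : ℤ) + (∑ x ∈ Finset.univ.erase j, a x : ℕ) = s := by exact_mod_cast hs'
      push_cast at hms h5 h6 ⊢
      linarith
  by_cases hex : ∃ s, Hd k Γ a e s ≠ 0
  · obtain ⟨s0, hs0⟩ := hex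
    rw [tsum_eq_single s0]
    · exact_mod_cast (Hd_top (k := k) Γ a s0).1
    · intro s hs
      by_contra hne
      have hne' : Hd k Γ a e s ≠ 0 := by
        intro h; apply hne; rw [h]; rfl
      apply hs
      have h1 := huniq s hne'
      have h2 := huniq s0 hs0
      omega
  · push Not at hex
    simp [hex]

end Pool.Agent.Helper604.Cube
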