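import Mathlib

set_option autoImplicit false

namespace Pool.Agent.Helper604.Rel

open MvPolynomial

variable {k : Type*} [Field k] {σ : Type*} [Fintype σ] [DecidableEq σ]

/-- the toric map -/
noncomputable def ev (k : Type*) [Field k] (a : σ → ℕ) : MvPolynomial σ k →ₐ[k] Polynomial k :=
  aeval (fun i => (Polynomial.X : Polynomial k) ^ (a i))

/-- the toric map with the variables outside `T` set to zero -/
noncomputable def ps (k : Type*) [Field k] (a : σ → ℕ) (T : Finset σ) :
    MvPolynomial σ k →ₐ[k] Polynomial k :=
  aeval (fun i => if i ∈ T then (Polynomial.X : Polynomial k) ^ (a i) else 0)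

omit [DecidableEq σ] in
theorem ev_monomial (a : σ → ℕ) (u : σ →₀ ℕ) (r : k) :
    ev k a (monomial u r) = Polynomial.monomial (∑ i, u i * a i) r := by
  unfold ev
  rw [aeval_monomial, Finsupp.prod_fintype _ _ (fun i => by simp)]
  simp only [← pow_mul]
  rw [Finset.prod_pow_eq_pow_sum, ← Polynomial.C_mul_X_pow_eq_monomial]
  simp only [mul_comm (a _)]
  rfl

theorem ps_monomial (a : σ → ℕ) (T : Finset σ) (u : σ →₀ ℕ) (r : k) :
    ps k a T (monomial u r) =
      if (∀ i, i ∉ T → u i = 0) then Polynomial.monomial (∑ i, u i * a i) r else 0 := by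
  unfold ps
  rw [aeval_monomial, Finsupp.prod_fintype _ _ (fun i => by simp)]
  split_ifs with h
  · have : ∀ i, (if i ∈ T then (Polynomial.X : Polynomial k) ^ (a i) else 0) ^ (u i) =
        (Polynomial.X : Polynomial k) ^ (u i * a i) := by
      intro i
      split_ifs with hi
      · rw [← pow_mul, mul_comm]
      · rw [h i hi]; simp
    simp only [this]
    rw [Finset.prod_pow_eq_pow_sum, ← Polynomial.C_mul_X_pow_eq_monomial]
    rfl
  · push Not at h
    obtain ⟨i, hi, hu⟩ := h
    rw [Finset.prod_eq_zero (Finset.mem_univ i), mul_zero]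
    rw [if_neg hi, zero_pow hu]

/-- coefficients agree in a degree all of whose factorizations are supported in `T` -/
theorem coeff_ps_eq (a : σ → ℕ) (T : Finset σ) (w : ℕ)
    (hw : ∀ u : σ →₀ ℕ, ∑ i, u i * a i = w → ∀ i, i ∉ T → u i = 0) (f : MvPolynomial σ k) :
    (ps k a T f).coeff w = (ev k a f).coeff w := by
  induction f using MvPolynomial.induction_on' with
  | monomial u r =>
    rw [ps_monomial, ev_monomial]
    by_cases h : ∑ i, u i * a i = w
    · rw [if_pos (hw u h)]
    · rw [Polynomial.coeff_monomial, if_neg h]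
      split_ifs
      · rw [Polynomial.coeff_monomial, if_neg h]
      · simp
  | add p q hp hq => simp only [map_add, Polynomial.coeff_add, hp, hq]

/-- a nonzero coefficient of `ps` comes from a monomial supported in `T` -/
theorem coeff_ps_ne (a : σ → ℕ) (T : Finset σ) (w : ℕ) (f : MvPolynomial σ k)
    (h : (ps k a T f).coeff w ≠ 0) :
    ∃ u : σ →₀ ℕ, (∀ i, i ∉ T → u i = 0) ∧ ∑ i, u i * a i = w := by
  by_contra hcon
  push Not at hcon
  apply h
  induction f using MvPolynomial.induction_on' with
  | monomial u r =>
    rw [ps_monomial]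
    split_ifs with h1
    · rw [Polynomial.coeff_monomial, if_neg (hcon u h1)]
    · simp
  | add p q hp hq =>
    rw [map_add, Polynomial.coeff_add]
    by_cases hp0 : (ps k a T p).coeff w = 0
    · by_cases hq0 : (ps k a T q).coeff w = 0
      · rw [hp0, hq0, add_zero]
      · rw [hq hq0] at hq0; exact (hq0 rfl).elim
    · rw [hp hp0] at hp0; exact (hp0 rfl).elim

theorem coeff_ps_zero (a : σ → ℕ) (ha : ∀ i, 0 < a i) (T : Finset σ) (f : MvPolynomial σ k) :
    (ps k a T f).coeff 0 = constantCoeff f := by
  induction f using MvPolynomial.induction_on' with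
  | monomial u r =>
    rw [ps_monomial, constantCoeff_monomial]
    by_cases h : u = 0
    · subst h; simp
    · rw [if_neg h]
      split_ifs with h1
      · rw [Polynomial.coeff_monomial, if_neg]
        intro h2
        apply h
        ext i
        have := (Finset.sum_eq_zero_iff.mp h2) i (Finset.mem_univ i)
        rcases Nat.mul_eq_zero.mp this with h3 | h3
        · simpa using h3
        · exact absurd h3 (ha i).ne'
      · simp
  | add p q hp hq => simp only [map_add, Polynomial.coeff_add, hp, hq]

/-- `v` is a degree whose factorizations are either all supported in `T` or all outside `T` -/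
def Split (a : σ → ℕ) (T : Finset σ) (v : ℕ) : Prop :=
  ∀ u : σ →₀ ℕ, ∑ i, u i * a i = v → (∀ i, i ∉ T → u i = 0) ∨ (∀ i, i ∈ T → u i = 0)

theorem phi_mul (a : σ → ℕ) (ha : ∀ i, 0 < a i) (T : Finset σ) (v : ℕ) (hv : Split a T v)
    (f h : MvPolynomial σ k) (hf : ev k a f = 0) :
    (ps k a T (h * f)).coeff v = constantCoeff h * (ps k a T f).coeff v := by
  rw [map_mul, Polynomial.coeff_mul]
  rw [Finset.sum_eq_single (0, v)]
  · rw [coeff_ps_zero a ha]
  · rintro ⟨i, j⟩ hij hne
    rw [Finset.HasAntidiagonal.mem_antidiagonal] at hij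
    simp only at hij ⊢
    have hi : i ≠ 0 := by
      rintro rfl
      apply hne
      simp only [zero_add] at hij
      rw [hij]
    by_cases hc : (ps k a T h).coeff i = 0
    · rw [hc, zero_mul]
    · obtain ⟨t, ht, hti⟩ := coeff_ps_ne a T i h hc
      have : (ps k a T f).coeff j = (ev k a f).coeff j := by
        apply coeff_ps_eq
        intro u hu
        have hsum : ∑ i, (u + t) i * a i = v := by
          simp only [Finsupp.add_apply, add_mul, Finset.sum_add_distrib]
          omega
        have ht0 : ∃ l, l ∈ T ∧ t l ≠ 0 := by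
          by_contra hcon
          push Not at hcon
          apply hi
          rw [← hti]
          apply Finset.sum_eq_zero
          intro l _
          by_cases hl : l ∈ T
          · rw [hcon l hl, zero_mul]
          · rw [ht l hl, zero_mul]
        obtain ⟨l, hl, htl⟩ := ht0
        rcases hv (u + t) hsum with h1 | h1
        · intro i hi
          have := h1 i hi
          simp only [Finsupp.add_apply] at this
          omega
        · exfalso
          have := h1 l hl
          simp only [Finsupp.add_apply] at this
          omega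
      rw [this, hf, Polynomial.coeff_zero, mul_zero]
  · intro hne
    exfalso
    apply hne
    rw [Finset.HasAntidiagonal.mem_antidiagonal, zero_add]

/-- Lower bound for the number of generators of the toric ideal. -/
theorem card_le (a : σ → ℕ) (ha : ∀ i, 0 < a i) (T : Finset σ) {N : ℕ} (v : Fin N → ℕ)
    (hinj : Function.Injective v) (hv : ∀ n, Split a T (v n))
    (hu : ∀ n, ∃ u : σ →₀ ℕ, (∀ i, i ∉ T → u i = 0) ∧ ∑ i, u i * a i = v n)
    (hu' : ∀ n, ∃ u : σ →₀ ℕ, (¬ ∀ i, i ∉ T → u i = 0) ∧ ∑ i, u i * a i = v n)
    (s : Finset (MvPolynomial σ k))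
    (hs : Ideal.span (s : Set (MvPolynomial σ k)) = RingHom.ker (ev k a)) : N ≤ s.card := by
  classical
  let Φ : MvPolynomial σ k →ₗ[k] (Fin N → k) :=
    LinearMap.pi (fun n => (Polynomial.lcoeff k (v n)).comp (ps k a T).toLinearMap)
  have hΦ : ∀ f n, Φ f n = (ps k a T f).coeff (v n) := fun f n => rfl
  have key : ∀ f ∈ Ideal.span (s : Set (MvPolynomial σ k)),
      Φ f ∈ Submodule.span k ((s.image Φ : Finset (Fin N → k)) : Set (Fin N → k)) := by
    intro f hf
    induction hf using Submodule.span_induction with
    | mem x hx =>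
      apply Submodule.subset_span
      rw [Finset.coe_image]
      exact ⟨x, hx, rfl⟩
    | zero => simp
    | add x y _ _ hx hy => rw [map_add]; exact Submodule.add_mem _ hx hy
    | smul h x hx hx' =>
      have hx0 : ev k a x = 0 := by
        have : x ∈ RingHom.ker (ev k a) := by rw [← hs]; exact hx
        exact this
      have : Φ (h • x) = constantCoeff h • Φ x := by
        ext n
        rw [Pi.smul_apply, hΦ, hΦ, smul_eq_mul, smul_eq_mul]
        exact phi_mul a ha T (v n) (hv n) x h hx0
      rw [this]
      exact Submodule.smul_mem _ _ hx'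
  have htop : Submodule.span k ((s.image Φ : Finset (Fin N → k)) : Set (Fin N → k)) = ⊤ := by
    rw [eq_top_iff, ← (Pi.basisFun k (Fin N)).span_eq, Submodule.span_le]
    rintro _ ⟨n, rfl⟩
    obtain ⟨u, hu1, hu2⟩ := hu n
    obtain ⟨u', hu1', hu2'⟩ := hu' n
    have hg : (monomial u (1 : k) - monomial u' 1) ∈ Ideal.span (s : Set (MvPolynomial σ k)) := by
      rw [hs, RingHom.mem_ker, map_sub, ev_monomial, ev_monomial, hu2, hu2', sub_self]
    have h1 := key _ hg
    have h2 : Φ (monomial u (1 : k) - monomial u' 1) = Pi.basisFun k (Fin N) n := by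
      ext m
      rw [hΦ, map_sub, ps_monomial, ps_monomial, if_pos hu1, if_neg hu1', sub_zero, hu2,
        Polynomial.coeff_monomial, Pi.basisFun_apply, Pi.single_apply]
      by_cases h : m = n
      · rw [h]; simp
      · rw [if_neg h, if_neg]
        intro h'
        exact h (hinj h').symm
    rw [← h2]
    exact h1
  have h1 := finrank_span_finset_le_card (R := k) (s.image Φ)
  rw [Set.finrank, htop, finrank_top, Module.finrank_fin_fun] at h1
  exact h1.trans Finset.card_image_le

end Pool.Agent.Helper604.Rel
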