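import Pool.Agent.Helper604.CubeGen
import Pool.Agent.Helper604.Rel

set_option autoImplicit false

namespace Pool.Agent.Helper604.Cube

/-- the special degrees -/
def deg (q n : ℕ) : ℕ := ((q + 1) ^ 3 + q ^ 3) * (q + 1) + q ^ 2 * n + (q + 1) ^ 2 * q

theorem deg_val (q n : ℕ) : ((deg q n : ℕ) : ℤ) = val ((q + 1 : ℕ) : ℤ) q ((q + 1 : ℕ) : ℤ) n 0 q := by
  unfold deg val
  push_cast
  ring

theorem deg_inj {q : ℕ} (hq : 1 ≤ q) {n m : ℕ} (h : deg q n = deg q m) : n = m := by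
  unfold deg at h
  have : q ^ 2 * n = q ^ 2 * m := by omega
  exact Nat.eq_of_mul_eq_mul_left (by positivity) this

theorem two_types {q : ℕ} (hq : 1 ≤ q) {n : ℕ} (hn1 : 1 ≤ n) (hn2 : n ≤ q) (u : Fin 8 → ℕ)
    (hu : ∑ j, u j * gen (q + 1) q j = deg q n) :
    (∀ i, i ∉ ({2, 3} : Finset (Fin 8)) → u i = 0) ∨ (∀ i, i ∈ ({2, 3} : Finset (Fin 8)) → u i = 0) := by
  have h1 := sum_gen (q + 1) q u
  rw [hu, deg_val] at h1
  have h2 := two_reps (p := ((q + 1 : ℕ) : ℤ)) (q := (q : ℤ)) (by exact_mod_cast hq) (by push_cast; ring)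
    (by push_cast; exact cop q) (n := n) (by exact_mod_cast hn1) (by exact_mod_cast hn2)
    ⟨by positivity, by push_cast; omega⟩ ⟨by positivity, by push_cast; omega⟩
    ⟨by positivity, by push_cast; omega⟩ h1.symm
  rcases h2 with ⟨e1, e2, e3, e4⟩ | ⟨e1, e2, e3, e4⟩
  · left
    intro i hi
    have g0 : u 0 = 0 := by omega
    have g1 : u 1 = 0 := by omega
    have g4 : u 4 = 0 := by omega
    have g5 : u 5 = 0 := by omega
    have g6 : u 6 = 0 := by omega
    have g7 : u 7 = 0 := by omega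
    fin_cases i
    · exact g0
    · exact g1
    · exact absurd hi (by decide)
    · exact absurd hi (by decide)
    · exact g4
    · exact g5
    · exact g6
    · exact g7
  · right
    intro i hi
    have g2 : u 2 = 0 := by omega
    have g3 : u 3 = 0 := by omega
    simp only [Finset.mem_insert, Finset.mem_singleton] at hi
    rcases hi with rfl | rfl
    · exact g2
    · exact g3

theorem exists_type1 {q : ℕ} {n : ℕ} (hn2 : n ≤ q) :
    ∃ u : Fin 8 → ℕ, (∀ i, i ∉ ({2, 3} : Finset (Fin 8)) → u i = 0) ∧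
      ∑ j, u j * gen (q + 1) q j = deg q n := by
  obtain ⟨h0, h1, h2, h3, h4, h5, h6, h7⟩ := gen_val (q + 1) q
  obtain ⟨m, hm⟩ : ∃ m, q + 1 = m + n := ⟨q + 1 - n, by omega⟩
  refine ⟨![0, 0, m, n, 0, 0, 0, 0], ?_, ?_⟩
  · intro i hi
    fin_cases i <;> first | rfl | exact absurd hi (by decide)
  · rw [Fin.sum_univ_eight, h2, h3]
    simp only [Matrix.cons_val]
    unfold deg
    zify at hm ⊢
    have : (m : ℤ) = q + 1 - n := by linarith
    rw [this]
    ring

theorem exists_type2 {q : ℕ} {n : ℕ} (hn1 : 1 ≤ n) (hn2 : n ≤ q) :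
    ∃ u : Fin 8 → ℕ, (¬ ∀ i, i ∉ ({2, 3} : Finset (Fin 8)) → u i = 0) ∧
      ∑ j, u j * gen (q + 1) q j = deg q n := by
  obtain ⟨h0, h1, h2, h3, h4, h5, h6, h7⟩ := gen_val (q + 1) q
  obtain ⟨m, rfl⟩ : ∃ m, n = m + 1 := ⟨n - 1, by omega⟩
  obtain ⟨r, hr⟩ : ∃ r, q = m + r := ⟨q - m, by omega⟩
  refine ⟨![0, 1, 0, 0, r, m, 0, 0], ?_, ?_⟩
  · intro h
    have := h 1 (by decide)
    simp at this
  · rw [Fin.sum_univ_eight, h1, h4, h5]
    simp only [Matrix.cons_val]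
    unfold deg
    zify at hr ⊢
    have : (r : ℤ) = q - m := by linarith
    rw [this]
    ring

/-- the toric ideal of the symmetric semigroup needs at least `q` generators -/
theorem ideal_bound {k : Type*} [Field k] {q : ℕ} (hq : 1 ≤ q)
    (s : Finset (MvPolynomial (Fin 8) k))
    (hs : Ideal.span (s : Set (MvPolynomial (Fin 8) k)) =
      RingHom.ker (Rel.ev k (gen (q + 1) q))) : q ≤ s.card := by
  apply Rel.card_le (gen (q + 1) q) (gen_pos hq) {2, 3} (fun n : Fin q => deg q (n + 1))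
    ?_ ?_ ?_ ?_ s hs
  · intro n m h
    have := deg_inj hq h
    ext
    omega
  · intro n u hu
    exact two_types hq (by omega) (by omega) u hu
  · intro n
    obtain ⟨u, h1, h2⟩ := exists_type1 (q := q) (n := n + 1) (by omega)
    exact ⟨Finsupp.equivFunOnFinite.symm u, h1, h2⟩
  · intro n
    obtain ⟨u, h1, h2⟩ := exists_type2 (q := q) (n := n + 1) (by omega) (by omega)
    exact ⟨Finsupp.equivFunOnFinite.symm u, h1, h2⟩

theorem sym_gen {q : ℕ} (hq : 1 ≤ q) : ∃ F : ℤ, ∀ z : ℤ,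
      ((∃ c : Fin 8 → ℕ, ((∑ j, c j * gen (q + 1) q j : ℕ) : ℤ) = z) ↔
        ¬ ∃ c : Fin 8 → ℕ, ((∑ j, c j * gen (q + 1) q j : ℕ) : ℤ) = F - z) := by
  refine ⟨Fr ((q + 1 : ℕ) : ℤ) q, fun z => ?_⟩
  rw [sum_iff_S, sum_iff_S]
  exact sym_iff (by exact_mod_cast hq) (by push_cast; ring) (by push_cast; exact cop q) z

end Pool.Agent.Helper604.Cube
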