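import Pool.Agent.Helper604.CubeRel

set_option autoImplicit false

namespace Pool.Agent.Helper604.Glue

open Pool.Agent.Helper604

/-- integers that are sums of the given numbers -/
def InS {e : ℕ} (a : Fin e → ℕ) (z : ℤ) : Prop := ∃ c : Fin e → ℕ, ((∑ j, c j * a j : ℕ) : ℤ) = z

/-- a symmetric semigroup with `e` minimal generators and at least `N` special degrees -/
structure Good (e N : ℕ) where
  a : Fin e → ℕ
  pos : ∀ i, 0 < a i
  minl : ∀ i : Fin e, ∀ c : Fin e → ℕ, c i = 0 → ∑ j, c j * a j ≠ a i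
  F : ℤ
  symm : ∀ z : ℤ, InS a z ↔ ¬ InS a (F - z)
  T : Finset (Fin e)
  v : Fin N → ℕ
  vinj : Function.Injective v
  split : ∀ n, ∀ u : Fin e → ℕ, ∑ i, u i * a i = v n →
    (∀ i, i ∉ T → u i = 0) ∨ (∀ i, i ∈ T → u i = 0)
  in1 : ∀ n, ∃ u : Fin e → ℕ, (∀ i, i ∉ T → u i = 0) ∧ ∑ i, u i * a i = v n
  in2 : ∀ n, ∃ u : Fin e → ℕ, (¬ ∀ i, i ∉ T → u i = 0) ∧ ∑ i, u i * a i = v n

theorem InS.nonneg {e : ℕ} {a : Fin e → ℕ} {z : ℤ} (h : InS a z) : 0 ≤ z := by
  obtain ⟨c, rfl⟩ := h
  positivity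

theorem InS.add {e : ℕ} {a : Fin e → ℕ} {z w : ℤ} (h : InS a z) (h' : InS a w) :
    InS a (z + w) := by
  obtain ⟨c, rfl⟩ := h
  obtain ⟨d, rfl⟩ := h'
  refine ⟨fun j => c j + d j, ?_⟩
  simp only [add_mul, Finset.sum_add_distrib]
  push_cast
  ring

theorem InS.nsmul {e : ℕ} {a : Fin e → ℕ} {z : ℤ} (h : InS a z) (n : ℕ) : InS a (n * z) := by
  obtain ⟨c, rfl⟩ := h
  refine ⟨fun j => n * c j, ?_⟩
  simp only [mul_assoc, ← Finset.mul_sum]
  push_cast
  ring

theorem InS_zero {e : ℕ} (a : Fin e → ℕ) : InS a 0 := ⟨fun _ => 0, by simp⟩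

/-- start: the cube family -/
def start (N : ℕ) : Good 8 N where
  a := Cube.gen (N + 1 + 1) (N + 1)
  pos := Cube.gen_pos (by omega)
  minl := Cube.gen_min (by omega)
  F := Cube.Fr ((N + 1 + 1 : ℕ) : ℤ) ((N + 1 : ℕ) : ℤ)
  symm := by
    intro z
    unfold InS
    rw [Cube.sum_iff_S, Cube.sum_iff_S]
    exact Cube.sym_iff (by push_cast; omega) (by push_cast; ring)
      (by push_cast; exact Cube.cop _) z
  T := {2, 3}
  v := fun n => Cube.deg (N + 1) (n + 1)
  vinj := by
    intro n m h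
    have := Cube.deg_inj (by omega) h
    ext
    omega
  split := by
    intro n u hu
    exact Cube.two_types (by omega) (by omega) (by omega) u hu
  in1 := fun n => Cube.exists_type1 (q := N + 1) (n := n + 1) (by omega)
  in2 := fun n => Cube.exists_type2 (q := N + 1) (n := n + 1) (by omega) (by omega)

/-- gluing with a large odd element -/
theorem glue {e N : ℕ} (G : Good e N) : Nonempty (Good (e + 1) N) := by
  -- a large odd element of the semigroup
  obtain ⟨M, hM1, hM2⟩ : ∃ M : ℕ, (∀ i, G.a i ≤ M) ∧ (∀ n, G.v n ≤ M) := by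
    refine ⟨∑ i, G.a i + ∑ n, G.v n, fun i => ?_, fun n => ?_⟩
    · exact (Finset.single_le_sum (fun _ _ => Nat.zero_le _) (Finset.mem_univ i)).trans
        (Nat.le_add_right _ _)
    · exact (Finset.single_le_sum (fun _ _ => Nat.zero_le _) (Finset.mem_univ n)).trans
        (Nat.le_add_left _ _)
  have hbig : ∀ z : ℤ, G.F < z → InS G.a z := by
    intro z hz
    rw [G.symm]
    intro h
    have := h.nonneg
    omega
  obtain ⟨l, hl1, hl2, hl3⟩ : ∃ l : ℕ, 2 * M < l ∧ l % 2 = 1 ∧ InS G.a l :=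
    ⟨2 * (M + G.F.toNat + 1) + 1, by omega, by omega, hbig _ (by push_cast; omega)⟩
  obtain ⟨cl, hcl⟩ := hl3
  have hcl' : ∑ j, cl j * G.a j = l := by exact_mod_cast hcl
  let b : Fin (e + 1) → ℕ := Fin.cons l (fun i => 2 * G.a i)
  have hb0 : b 0 = l := rfl
  have hbs : ∀ i : Fin e, b i.succ = 2 * G.a i := fun i => rfl
  have hsum : ∀ c : Fin (e + 1) → ℕ, ∑ j, c j * b j =
      c 0 * l + 2 * ∑ j : Fin e, c j.succ * G.a j := by
    intro c
    rw [Fin.sum_univ_succ, hb0, Finset.mul_sum]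
    congr 1
    apply Finset.sum_congr rfl
    intro j _
    rw [hbs]; ring
  have heven : ∀ z : ℤ, InS b (2 * z) ↔ InS G.a z := by
    intro z
    constructor
    · rintro ⟨c, hc⟩
      rw [hsum] at hc
      have hpar : c 0 % 2 = 0 := by
        have h1 : ((c 0 * l + 2 * ∑ j : Fin e, c j.succ * G.a j : ℕ) : ℤ) % 2 = 0 := by
          rw [hc]; omega
        have h2 : (c 0 * l + 2 * ∑ j : Fin e, c j.succ * G.a j) % 2 = 0 := by exact_mod_cast h1
        rw [Nat.add_mod, Nat.mul_mod, hl2, Nat.mul_mod_right] at h2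
        omega
      obtain ⟨m, hm⟩ : ∃ m, c 0 = 2 * m := ⟨c 0 / 2, by omega⟩
      have h3 : z = (m : ℤ) * l + (∑ j : Fin e, c j.succ * G.a j : ℕ) := by
        rw [hm] at hc
        push_cast at hc ⊢
        linarith
      rw [h3]
      exact (InS.nsmul ⟨cl, hcl⟩ m).add ⟨_, rfl⟩
    · rintro ⟨c, hc⟩
      refine ⟨Fin.cons 0 c, ?_⟩
      rw [hsum]
      simp only [Fin.cons_zero, Fin.cons_succ, zero_mul, zero_add]
      push_cast at hc ⊢
      rw [hc]
  have hodd : ∀ z : ℤ, InS b (l + 2 * z) ↔ InS G.a z := by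
    intro z
    constructor
    · rintro ⟨c, hc⟩
      rw [hsum] at hc
      have hpar : c 0 % 2 = 1 := by
        have h1 : ((c 0 * l + 2 * ∑ j : Fin e, c j.succ * G.a j : ℕ) : ℤ) % 2 = 1 := by
          rw [hc]
          have : (l : ℤ) % 2 = 1 := by exact_mod_cast hl2
          omega
        have h2 : (c 0 * l + 2 * ∑ j : Fin e, c j.succ * G.a j) % 2 = 1 := by exact_mod_cast h1
        rw [Nat.add_mod, Nat.mul_mod, hl2, Nat.mul_mod_right] at h2
        omega
      obtain ⟨m, hm⟩ : ∃ m, c 0 = 2 * m + 1 := ⟨c 0 / 2, by omega⟩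
      have h3 : z = (m : ℤ) * l + (∑ j : Fin e, c j.succ * G.a j : ℕ) := by
        rw [hm] at hc
        push_cast at hc ⊢
        linarith
      rw [h3]
      exact (InS.nsmul ⟨cl, hcl⟩ m).add ⟨_, rfl⟩
    · rintro ⟨c, hc⟩
      refine ⟨Fin.cons 1 c, ?_⟩
      rw [hsum]
      simp only [Fin.cons_zero, Fin.cons_succ, one_mul]
      push_cast at hc ⊢
      rw [hc]
  have hlodd : (l : ℤ) % 2 = 1 := by exact_mod_cast hl2
  refine ⟨{
    a := b
    pos := ?_
    minl := ?_
    F := 2 * G.F + l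
    symm := ?_
    T := G.T.map (Fin.succEmb e)
    v := fun n => 2 * G.v n
    vinj := ?_
    split := ?_
    in1 := ?_
    in2 := ?_ }⟩
  · intro i
    refine Fin.cases ?_ (fun i => ?_) i
    · rw [hb0]; omega
    · rw [hbs]; have := G.pos i; omega
  · intro i
    refine Fin.cases ?_ (fun i => ?_) i
    · intro c hc h
      rw [hsum, hc, hb0] at h
      omega
    · intro c hc h
      rw [hsum, hbs] at h
      have h1 := hM1 i
      by_cases h0 : c 0 = 0
      · rw [h0, zero_mul, zero_add] at h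
        exact G.minl i (fun j => c j.succ) hc (by omega)
      · have : l ≤ c 0 * l := Nat.le_mul_of_pos_left l (by omega)
        omega
  · intro z
    rcases Int.even_or_odd z with ⟨w, hw⟩ | ⟨w, hw⟩
    · have e1 : z = 2 * w := by omega
      have e2 : 2 * G.F + l - z = l + 2 * (G.F - w) := by rw [e1]; ring
      rw [e2, hodd, e1, heven]
      exact G.symm w
    · obtain ⟨w', hw'⟩ : ∃ w', z = l + 2 * w' := ⟨(z - l) / 2, by omega⟩
      have e2 : 2 * G.F + l - z = 2 * (G.F - w') := by rw [hw']; ring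
      rw [e2, heven, hw', hodd]
      exact G.symm w'
  · intro n m h
    apply G.vinj
    simp only at h
    omega
  · intro n u hu
    rw [hsum] at hu
    have h1 := hM2 n
    have h0 : u 0 = 0 := by
      by_contra h0
      have : l ≤ u 0 * l := Nat.le_mul_of_pos_left l (by omega)
      omega
    rw [h0, zero_mul, zero_add] at hu
    have h2 := G.split n (fun j => u j.succ) (by omega)
    rcases h2 with h2 | h2
    · left
      intro i
      refine Fin.cases ?_ (fun i => ?_) i
      · intro _; exact h0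
      · intro hi
        apply h2
        intro hiT
        apply hi
        rw [Finset.mem_map]
        exact ⟨i, hiT, rfl⟩
    · right
      intro i hi
      rw [Finset.mem_map] at hi
      obtain ⟨j, hj, rfl⟩ := hi
      exact h2 j hj
  · intro n
    obtain ⟨u, hu1, hu2⟩ := G.in1 n
    refine ⟨Fin.cons 0 u, ?_, ?_⟩
    · intro i
      refine Fin.cases ?_ (fun i => ?_) i
      · intro _; rfl
      · intro hi
        simp only [Fin.cons_succ]
        apply hu1
        intro hiT
        apply hi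
        rw [Finset.mem_map]
        exact ⟨i, hiT, rfl⟩
    · rw [hsum]
      simp only [Fin.cons_zero, Fin.cons_succ, zero_mul, zero_add]
      rw [hu2]
  · intro n
    obtain ⟨u, hu1, hu2⟩ := G.in2 n
    refine ⟨Fin.cons 0 u, ?_, ?_⟩
    · intro hcon
      apply hu1
      intro i hi
      have := hcon i.succ (by
        intro h
        rw [Finset.mem_map] at h
        obtain ⟨j, hj, hji⟩ := h
        have : j = i := Fin.succ_injective _ hji
        exact hi (this ▸ hj))
      simpa using this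
    · rw [hsum]
      simp only [Fin.cons_zero, Fin.cons_succ, zero_mul, zero_add]
      rw [hu2]

theorem good (e N : ℕ) (he : 8 ≤ e) : Nonempty (Good e N) := by
  induction e, he using Nat.le_induction with
  | base => exact ⟨start N⟩
  | succ e _ ih =>
    obtain ⟨G⟩ := ih
    exact glue G

end Pool.Agent.Helper604.Glue
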