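import Pool.Agent.Helper604.Glue

set_option autoImplicit false

namespace Pool.Agent.Helper604.NSG

open Pool.Agent.Helper604

/-! ### Definitions -/

/-- the integer `x` belongs to the submonoid `Γ` of `ℕ` -/
def Mem (Γ : AddSubmonoid ℕ) (x : ℤ) : Prop := ∃ n ∈ Γ, (n : ℤ) = x

/-- `Γ` is a numerical semigroup: its complement in `ℕ` is finite -/
def IsNumericalSemigroup (Γ : AddSubmonoid ℕ) : Prop := ((Γ : Set ℕ)ᶜ).Finite

/-- the minimal generators of `Γ`: nonzero elements that are not a sum of two nonzero elements -/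
def minGens (Γ : AddSubmonoid ℕ) : Set ℕ :=
  {g | g ∈ Γ ∧ g ≠ 0 ∧ ∀ a ∈ Γ, ∀ b ∈ Γ, a + b = g → a = 0 ∨ b = 0}

/-- the embedding dimension -/
noncomputable def edim (Γ : AddSubmonoid ℕ) : ℕ∞ := (minGens Γ).encard

/-- the Frobenius number: the largest integer that is not in `Γ` -/
noncomputable def frob (Γ : AddSubmonoid ℕ) : ℤ := sSup {x : ℤ | ¬ Mem Γ x}

/-- symmetric: `frob Γ - x` is in `Γ` for every integer `x` not in `Γ` -/
def IsSymmetric (Γ : AddSubmonoid ℕ) : Prop := ∀ x : ℤ, ¬ Mem Γ x → Mem Γ (frob Γ - x)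

/-- pseudo-Frobenius numbers -/
def IsPF (Γ : AddSubmonoid ℕ) (x : ℤ) : Prop :=
  ¬ Mem Γ x ∧ ∀ s ∈ Γ, s ≠ 0 → Mem Γ (x + (s : ℤ))

/-- almost symmetric numerical semigroups -/
def IsAlmostSymmetric (Γ : AddSubmonoid ℕ) : Prop :=
  ∀ x : ℤ, ¬ Mem Γ x → Mem Γ (frob Γ - x) ∨ (IsPF Γ x ∧ IsPF Γ (frob Γ - x))

/-- nearly Gorenstein numerical semigroups -/
def IsNearlyGorenstein (Γ : AddSubmonoid ℕ) : Prop :=
  ∀ g ∈ minGens Γ, ∃ p : ℤ, IsPF Γ p ∧ ∀ q : ℤ, IsPF Γ q → Mem Γ ((g : ℤ) + p - q)

/-- the toric ideal `I_Γ`: the kernel of `k[x_g : g minimal generator] → k[t]`, `x_g ↦ t^g` -/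
noncomputable def toricIdeal (k : Type*) [Field k] (Γ : AddSubmonoid ℕ) :
    Ideal (MvPolynomial (minGens Γ) k) :=
  RingHom.ker (MvPolynomial.aeval (R := k)
    (fun g : minGens Γ => (Polynomial.X : Polynomial k) ^ (g : ℕ)))

/-- the number of relations: the least number of generators of the toric ideal -/
noncomputable def rho (k : Type*) [Field k] (Γ : AddSubmonoid ℕ) : ℕ∞ :=
  ⨅ (s : Set (MvPolynomial (minGens Γ) k)) (_ : Ideal.span s = toricIdeal k Γ), s.encard

/-! ### Sanity lemma -/

/-- the set of minimal generators generates, and it lies in every generating set -/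
theorem minGens_spec (Γ : AddSubmonoid ℕ) :
    AddSubmonoid.closure (minGens Γ) = Γ ∧
      ∀ G : Set ℕ, AddSubmonoid.closure G = Γ → minGens Γ ⊆ G := by
  constructor
  · apply le_antisymm
    · rw [AddSubmonoid.closure_le]
      intro g hg
      exact hg.1
    · intro n
      induction n using Nat.strong_induction_on with
      | _ n ih =>
        intro hn
        by_cases h0 : n = 0
        · rw [h0]; exact zero_mem _
        by_cases hm : n ∈ minGens Γ
        · exact AddSubmonoid.subset_closure hm
        · have : ∃ a ∈ Γ, ∃ b ∈ Γ, a + b = n ∧ a ≠ 0 ∧ b ≠ 0 := by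
            by_contra hcon
            apply hm
            refine ⟨hn, h0, ?_⟩
            intro a ha b hb hab
            by_contra hab'
            rw [not_or] at hab'
            exact hcon ⟨a, ha, b, hb, hab, hab'.1, hab'.2⟩
          obtain ⟨a, ha, b, hb, hab, ha0, hb0⟩ := this
          rw [← hab]
          exact add_mem (ih a (by omega) ha) (ih b (by omega) hb)
  · intro G hG g hg
    by_contra hgG
    let M : AddSubmonoid ℕ :=
      { carrier := {x | x ∈ Γ ∧ x ≠ g}
        zero_mem' := ⟨zero_mem _, fun h => hg.2.1 h.symm⟩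
        add_mem' := by
          rintro x y ⟨hx, hx'⟩ ⟨hy, hy'⟩
          refine ⟨add_mem hx hy, fun h => ?_⟩
          rcases hg.2.2 x hx y hy h with h0 | h0
          · apply hy'; rw [h0, zero_add] at h; exact h
          · apply hx'; rw [h0, add_zero] at h; exact h }
    have hle : AddSubmonoid.closure G ≤ M := by
      rw [AddSubmonoid.closure_le]
      intro x hx
      refine ⟨?_, fun h => hgG (h ▸ hx)⟩
      rw [← hG]
      exact AddSubmonoid.subset_closure hx
    have : g ∈ M := hle (by rw [hG]; exact hg.1)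
    exact this.2 rfl

/-! ### Transport from tuples -/

open Glue

variable {e N : ℕ}

/-- the semigroup generated by the tuple -/
def sg (G : Good e N) : AddSubmonoid ℕ where
  carrier := {n | InS G.a n}
  zero_mem' := by
    simp only [Set.mem_ofPred_eq]
    exact_mod_cast InS_zero G.a
  add_mem' := by
    intro a b ha hb
    simp only [Set.mem_ofPred_eq] at *
    push_cast
    exact ha.add hb

theorem mem_sg (G : Good e N) (n : ℕ) : n ∈ sg G ↔ InS G.a n := Iff.rfl

theorem Mem_sg (G : Good e N) (x : ℤ) : Mem (sg G) x ↔ InS G.a x := by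
  constructor
  · rintro ⟨n, hn, rfl⟩; exact hn
  · intro h
    have h0 := h.nonneg
    refine ⟨x.toNat, ?_, Int.toNat_of_nonneg h0⟩
    rw [mem_sg, Int.toNat_of_nonneg h0]; exact h

theorem F_not (G : Good e N) : ¬ InS G.a G.F := by
  have h := (G.symm 0).mp (InS_zero G.a)
  rwa [sub_zero] at h

theorem big (G : Good e N) {z : ℤ} (hz : G.F < z) : InS G.a z := by
  rw [G.symm]
  intro h
  have := h.nonneg
  omega

theorem sg_num (G : Good e N) : IsNumericalSemigroup (sg G) := by
  apply (Set.finite_Iic G.F.toNat).subset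
  intro n hn
  rw [Set.mem_compl_iff, SetLike.mem_coe, mem_sg] at hn
  rw [Set.mem_Iic]
  by_contra hlt
  exact hn (big G (by omega))

theorem sg_frob (G : Good e N) : frob (sg G) = G.F := by
  apply IsGreatest.csSup_eq
  constructor
  · simp only [Set.mem_ofPred_eq]
    rw [Mem_sg]
    exact F_not G
  · intro x hx
    simp only [Set.mem_ofPred_eq] at hx
    rw [Mem_sg] at hx
    by_contra hlt
    exact hx (big G (by omega))

theorem sg_symm (G : Good e N) : IsSymmetric (sg G) := by
  intro x hx
  rw [Mem_sg] at hx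
  rw [sg_frob, Mem_sg]
  by_contra h
  exact hx ((G.symm x).mpr h)

theorem symm_as {Γ : AddSubmonoid ℕ} (h : IsSymmetric Γ) : IsAlmostSymmetric Γ :=
  fun x hx => Or.inl (h x hx)

theorem mem_minGens (G : Good e N) (n : ℕ) : n ∈ minGens (sg G) ↔ ∃ i, G.a i = n := by
  have hinS : ∀ i, InS G.a (G.a i) := fun i => ⟨fun j => if j = i then 1 else 0, by simp⟩
  constructor
  · rintro ⟨hn, hn0, hmin⟩
    obtain ⟨c, hc⟩ := hn
    have hc' : ∑ j, c j * G.a j = n := by exact_mod_cast hc
    have : ∃ j, c j ≠ 0 := by
      by_contra hcon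
      push Not at hcon
      apply hn0
      rw [← hc']
      exact Finset.sum_eq_zero (fun j _ => by rw [hcon j, zero_mul])
    obtain ⟨j, hj⟩ := this
    have h2 : (∑ i, (c i - if i = j then 1 else 0) * G.a i) + G.a j = n := by
      rw [← hc', ← Finset.add_sum_erase Finset.univ (fun i => c i * G.a i) (Finset.mem_univ j),
        ← Finset.add_sum_erase Finset.univ (fun i => (c i - if i = j then 1 else 0) * G.a i)
          (Finset.mem_univ j)]
      simp only [if_true]
      have h1 : ∑ x ∈ Finset.univ.erase j, (c x - if x = j then 1 else 0) * G.a x =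
          ∑ x ∈ Finset.univ.erase j, c x * G.a x := by
        apply Finset.sum_congr rfl
        intro x hx
        rw [if_neg (Finset.mem_erase.mp hx).1, Nat.sub_zero]
      rw [h1]
      obtain ⟨m, hm⟩ : ∃ m, c j = m + 1 := ⟨c j - 1, by omega⟩
      rw [hm]
      simp only [Nat.add_sub_cancel]
      ring
    rcases hmin _ (by rw [mem_sg]; exact ⟨_, rfl⟩) (G.a j) (hinS j) h2 with h3 | h3
    · exact ⟨j, by omega⟩
    · have := G.pos j; omega
  · rintro ⟨i, rfl⟩
    refine ⟨hinS i, (G.pos i).ne', ?_⟩
    rintro x ⟨c, hc⟩ y ⟨d, hd⟩ hxy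
    have hc' : ∑ j, c j * G.a j = x := by exact_mod_cast hc
    have hd' : ∑ j, d j * G.a j = y := by exact_mod_cast hd
    by_contra hcon
    rw [not_or] at hcon
    have hx : x < G.a i := by omega
    have hy : y < G.a i := by omega
    have hci : c i = 0 := by
      by_contra h
      have h1 := Finset.single_le_sum (f := fun j => c j * G.a j) (fun _ _ => Nat.zero_le _)
        (Finset.mem_univ i)
      have h2 : G.a i ≤ c i * G.a i := Nat.le_mul_of_pos_left _ (by omega)
      omega
    have hdi : d i = 0 := by
      by_contra h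
      have h1 := Finset.single_le_sum (f := fun j => d j * G.a j) (fun _ _ => Nat.zero_le _)
        (Finset.mem_univ i)
      have h2 : G.a i ≤ d i * G.a i := Nat.le_mul_of_pos_left _ (by omega)
      omega
    apply G.minl i (fun j => c j + d j) (by simp only [hci, hdi])
    simp only [add_mul, Finset.sum_add_distrib]
    omega

theorem a_inj (G : Good e N) : Function.Injective G.a := by
  intro i j h
  by_contra hne
  apply G.minl i (fun l => if l = j then 1 else 0) (by simp [hne])
  simp [h]

/-- enumeration of the minimal generators -/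
noncomputable def enum (G : Good e N) : Fin e ≃ minGens (sg G) :=
  Equiv.ofBijective (fun i => ⟨G.a i, (mem_minGens G _).mpr ⟨i, rfl⟩⟩) (by
    constructor
    · intro i j h
      exact a_inj G (congrArg Subtype.val h)
    · rintro ⟨n, hn⟩
      obtain ⟨i, hi⟩ := (mem_minGens G n).mp hn
      exact ⟨i, Subtype.ext hi⟩)

theorem enum_val (G : Good e N) (i : Fin e) : (enum G i : ℕ) = G.a i := rfl

theorem sg_edim (G : Good e N) : edim (sg G) = e := by
  unfold edim
  have h : minGens (sg G) = Set.range G.a := by
    ext n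
    rw [mem_minGens, Set.mem_range]
  rw [h, ← Set.image_univ, (a_inj G).encard_image, Set.encard_univ]
  simp

theorem rho_ge (k : Type*) [Field k] (G : Good e N) : (N : ℕ∞) ≤ rho k (sg G) := by
  classical
  have : Fintype (minGens (sg G)) := Fintype.ofEquiv _ (enum G)
  refine le_iInf fun s => le_iInf fun hs => ?_
  by_cases hfin : s.Finite
  · obtain ⟨s', rfl⟩ : ∃ s' : Finset (MvPolynomial (minGens (sg G)) k), (s' : Set _) = s :=
      ⟨hfin.toFinset, hfin.coe_toFinset⟩
    rw [Set.encard_coe_eq_coe_finsetCard]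
    have hsum : ∀ u : minGens (sg G) → ℕ, ∑ g : minGens (sg G), u g * (g : ℕ) =
        ∑ i : Fin e, u (enum G i) * G.a i := by
      intro u
      rw [← Equiv.sum_comp (enum G)]
      rfl
    have hsum' : ∀ u : Fin e → ℕ, ∑ g : minGens (sg G), u ((enum G).symm g) * (g : ℕ) =
        ∑ i : Fin e, u i * G.a i := by
      intro u
      rw [hsum]
      simp
    have := Rel.card_le (k := k) (σ := minGens (sg G)) (fun g => (g : ℕ))
      (fun g => Nat.pos_of_ne_zero g.2.2.1) (G.T.map (enum G).toEmbedding) G.v G.vinj ?_ ?_ ?_ s' hs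
    · exact_mod_cast this
    · intro n u hu
      rw [hsum] at hu
      rcases G.split n _ hu with h | h
      · left
        intro g hg
        have := h ((enum G).symm g) (by
          intro hT
          apply hg
          rw [Finset.mem_map]
          exact ⟨_, hT, by simp⟩)
        simpa using this
      · right
        intro g hg
        rw [Finset.mem_map] at hg
        obtain ⟨i, hi, rfl⟩ := hg
        exact h i hi
    · intro n
      obtain ⟨u, hu1, hu2⟩ := G.in1 n
      refine ⟨Finsupp.equivFunOnFinite.symm (fun g => u ((enum G).symm g)), ?_, ?_⟩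
      · intro g hg
        simp only [Finsupp.equivFunOnFinite_symm_apply_apply]
        apply hu1
        intro hT
        apply hg
        rw [Finset.mem_map]
        exact ⟨_, hT, by simp⟩
      · simp only [Finsupp.equivFunOnFinite_symm_apply_apply]
        rw [hsum', hu2]
    · intro n
      obtain ⟨u, hu1, hu2⟩ := G.in2 n
      refine ⟨Finsupp.equivFunOnFinite.symm (fun g => u ((enum G).symm g)), ?_, ?_⟩
      · intro hcon
        apply hu1
        intro i hi
        have := hcon (enum G i) (by
          rw [Finset.mem_map]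
          rintro ⟨j, hj, hji⟩
          have : j = i := (enum G).injective hji
          exact hi (this ▸ hj))
        simpa using this
      · simp only [Finsupp.equivFunOnFinite_symm_apply_apply]
        rw [hsum', hu2]
  · have : s.encard = ⊤ := Set.Infinite.encard_eq hfin
    rw [this]
    exact le_top

/-- a symmetric semigroup is nearly Gorenstein -/
theorem sg_ng (G : Good e N) : IsNearlyGorenstein (sg G) := by
  have hPF : ∀ q : ℤ, IsPF (sg G) q → q = G.F := by
    intro q hq
    have h1 : InS G.a (G.F - q) := by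
      by_contra h
      exact hq.1 ((Mem_sg G q).mpr ((G.symm q).mpr h))
    obtain ⟨m, hm, hmq⟩ := (Mem_sg G _).mpr h1
    by_cases hm0 : m = 0
    · subst hm0
      push_cast at hmq
      linarith
    · exfalso
      have h2 := hq.2 m hm hm0
      rw [Mem_sg, hmq] at h2
      apply F_not G
      have : q + (G.F - q) = G.F := by ring
      rwa [this] at h2
  have hF : IsPF (sg G) G.F := by
    constructor
    · rw [Mem_sg]; exact F_not G
    · intro s hs hs0
      rw [Mem_sg]
      apply big
      have : 0 < s := Nat.pos_of_ne_zero hs0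
      omega
  intro g hg
  refine ⟨G.F, hF, fun q hq => ?_⟩
  rw [hPF q hq, add_sub_cancel_right]
  exact ⟨g, hg.1, rfl⟩

end Pool.Agent.Helper604.NSG
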